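import Pool.Agent.W709.RT.Full

/-! Checks of the definitions: the zigzag identity. -/

set_option autoImplicit false

namespace Pool.Agent.W709.RT

open Finset Matrix Pool.Agent.H550R3.Jones

/-- the tangle without crossings is the trivial one -/
theorem zigzag {N : ℕ} {v : ℂ} (hv : v ≠ 0) (hb : ∀ k : ℕ, 0 < k → k < N → br v k ≠ 0) :
    tang N [] v = 1 := by
  ext i j
  have hN : 0 < N := by have := i.isLt; omega
  unfold tang
  have hrep : rep (crossP N v) (crossN N v) 3 [] = (1 : Matrix (Fin 3 → Fin N) (Fin 3 → Fin N) ℂ) := by
    simp [rep]
  rw [hrep]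
  have hi := i.isLt
  have hj := j.isLt
  rw [Finset.sum_eq_single ((j, ⟨N - 1 - j, by omega⟩) : Fin N × Fin N)]
  · rw [Finset.sum_eq_single ((⟨N - 1 - j, by omega⟩, i) : Fin N × Fin N)]
    · rw [Matrix.one_apply_eq]
      unfold cap cup
      rw [if_pos (by simp only; omega)]
      by_cases h : i = j
      · subst h
        rw [Matrix.one_apply_eq, if_pos (by simp only; omega), mul_one]
        exact inv_mul_cancel₀ (kap_ne hv hb (by omega))
      · rw [Matrix.one_apply_ne h, if_neg, mul_zero]
        simp only
        intro hc
        apply h
        apply Fin.ext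
        omega
    · intro q _ hq
      have : (1 : Matrix (Fin 3 → Fin N) (Fin 3 → Fin N) ℂ)
          ![j, (⟨N - 1 - j, by omega⟩ : Fin N), i] ![j, q.1, q.2] = 0 := by
        apply Matrix.one_apply_ne
        intro hc
        apply hq
        have h1 := congrFun hc 1
        have h2 := congrFun hc 2
        simp only [Matrix.cons_val] at h1 h2
        exact Prod.ext h1.symm h2.symm
      exact mul_eq_zero_of_left (mul_eq_zero_of_right _ this) _
    · intro h
      exact absurd (Finset.mem_univ _) h
  · intro p _ hp
    apply Finset.sum_eq_zero
    intro q _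
    by_cases h1 : p.1 = j
    · have : cap N v p = 0 := by
        unfold cap
        rw [if_neg]
        intro hc
        apply hp
        apply Prod.ext h1
        apply Fin.ext
        simp only
        rw [← h1]
        omega
      rw [this]
      ring
    · have : (1 : Matrix (Fin 3 → Fin N) (Fin 3 → Fin N) ℂ)
          ![p.1, p.2, i] ![j, q.1, q.2] = 0 := by
        apply Matrix.one_apply_ne
        intro hc
        have h2 := congrFun hc 0
        exact h1 h2
      rw [this]
      ring
  · intro h
    exact absurd (Finset.mem_univ _) h

end Pool.Agent.W709.RT
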