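import Pool.Agent.W709.RT.Main2
import Pool.Agent.W709.VC.Full

/-! The volume conjecture for `C(A,A)`, from the R-matrix. -/

set_option autoImplicit false

namespace Pool.Agent.W709.RT

open Finset Matrix Pool.Agent.H550R3.Jones Filter Topology

/-- the invariant of the (1,1)-tangle -/
noncomputable def jt (A N : ℕ) (v : ℂ) : ℂ :=
  if h : 0 < N then tang N (word A) v ⟨0, h⟩ ⟨0, h⟩ else 0

lemma br_v0 {N : ℕ} : ∀ k : ℕ, 0 < k → k < N → br (EvenVol.v0 N) k ≠ 0 := by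
  intro k h0 hk
  have h2 : 2 ≤ N := by omega
  have := EvenVol.TE.br_ne (N := N) (by omega) (k : ℤ) (by
    intro hd
    have := Int.le_of_dvd (by omega) hd
    omega)
  exact this

lemma v0_ne (N : ℕ) : EvenVol.v0 N ≠ 0 := Complex.exp_ne_zero _

lemma v0_norm (N : ℕ) : ‖EvenVol.v0 N‖ = 1 := by
  unfold EvenVol.v0
  have : (Real.pi : ℂ) * Complex.I / N = ((Real.pi / N : ℝ) : ℂ) * Complex.I := by
    push_cast
    ring
  rw [this, Complex.norm_exp_ofReal_mul_I]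

theorem jt_cont (A N : ℕ) : ContinuousAt (jt A N) (EvenVol.v0 N) := by
  unfold jt
  by_cases h : 0 < N
  · simp only [dif_pos h]
    exact tang_cont (v0_ne N) br_v0 _ _ _
  · simp only [dif_neg h]
    exact continuousAt_const

/-- the value at the root of unity is the limit of `JD` -/
theorem jt_v0 {A N : ℕ} (hN : 2 ≤ N) {κ : ℂ}
    (hκ : Tendsto (Pool.Agent.H112R4.VL.JD (A : ℤ) (-(A : ℤ)) N) (𝓝[≠] (EvenVol.v0 N)) (𝓝 κ)) :
    jt A N (EvenVol.v0 N) = κ := by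
  have h0 : 0 < N := by omega
  have hne : (𝓝[{v : ℂ | ‖v‖ ≠ 1}] (EvenVol.v0 N)).NeBot := by
    rw [← mem_closure_iff_nhdsWithin_neBot, Metric.mem_closure_iff]
    intro ε hε
    refine ⟨((1 + ε / 2 : ℝ) : ℂ) * EvenVol.v0 N, ?_, ?_⟩
    · simp only [Set.mem_ofPred_eq, norm_mul, v0_norm, mul_one, Complex.norm_real, Real.norm_eq_abs]
      rw [abs_of_pos (by linarith)]
      linarith
    · rw [dist_eq_norm]
      have : EvenVol.v0 N - ((1 + ε / 2 : ℝ) : ℂ) * EvenVol.v0 N =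
          ((-(ε / 2) : ℝ) : ℂ) * EvenVol.v0 N := by
        push_cast
        ring
      rw [this, norm_mul, v0_norm, mul_one, Complex.norm_real, Real.norm_eq_abs, abs_neg,
        abs_of_pos (by linarith)]
      linarith
  have hle : 𝓝[{v : ℂ | ‖v‖ ≠ 1}] (EvenVol.v0 N) ≤ 𝓝[≠] (EvenVol.v0 N) := by
    apply nhdsWithin_mono
    intro v hv hc
    rw [Set.mem_singleton_iff] at hc
    apply hv
    rw [hc, v0_norm]
  have h1 : Tendsto (Pool.Agent.H112R4.VL.JD (A : ℤ) (-(A : ℤ)) N)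
      (𝓝[{v : ℂ | ‖v‖ ≠ 1}] (EvenVol.v0 N)) (𝓝 κ) := hκ.mono_left hle
  have h2 : Tendsto (jt A N) (𝓝[{v : ℂ | ‖v‖ ≠ 1}] (EvenVol.v0 N)) (𝓝 (jt A N (EvenVol.v0 N))) :=
    (jt_cont A N).mono_left nhdsWithin_le_nhds
  have h3 : Pool.Agent.H112R4.VL.JD (A : ℤ) (-(A : ℤ)) N =ᶠ[𝓝[{v : ℂ | ‖v‖ ≠ 1}] (EvenVol.v0 N)]
      jt A N := by
    have hv0 : ∀ᶠ v in 𝓝[{v : ℂ | ‖v‖ ≠ 1}] (EvenVol.v0 N), v ≠ 0 :=
      nhdsWithin_le_nhds (isOpen_ne.mem_nhds (v0_ne N))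
    filter_upwards [self_mem_nhdsWithin, hv0] with v hv hv'
    unfold jt
    rw [dif_pos h0, tang_off hv' hv h0]
  exact tendsto_nhds_unique h2 (h1.congr' h3)

/-- volume conjecture for the double twist knots and links -/
theorem main {A : ℕ} (hA : 4 ≤ A) : ∃ V : ℝ,
    IsGreatest {W : ℝ | ∃ w, Pool.Agent.W709.VC.IsAngle A A w ∧ Pool.Agent.W709.VC.volw A A w = W} V ∧
    Tendsto (fun N : ℕ => 2 * Real.pi * (Real.log ‖jt A N (EvenVol.v0 N)‖ / N)) atTop (𝓝 V) := by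
  obtain ⟨κ, V, h1, h2, h3⟩ := Pool.Agent.W709.VC.main hA
  refine ⟨V, h2, h3.congr' ?_⟩
  filter_upwards [eventually_ge_atTop 2] with N hN
  rw [jt_v0 hN (h1 N hN)]

end Pool.Agent.W709.RT
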