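import Pool.Agent.W709.RT.Main
import Pool.Agent.H756R3.J.Cont

/-! The invariant of the (1,1)-tangle at generic `v` is `JD`; continuity at the root of unity. -/

set_option autoImplicit false
set_option maxHeartbeats 1000000

namespace Pool.Agent.W709.RT

open Finset Matrix Pool.Agent.H550R3.Jones Filter Topology
open scoped Kronecker

variable {N : ℕ}

lemma tang_pr (v : ℂ) (hN : 0 < N) (a : ℕ) : tang N (word a) v ⟨0, hN⟩ ⟨0, hN⟩ =
    pr v hN (((on23 (crossN N v)) ^ a * (on12 (crossP N v)) ^ a) *ᵥ F0 v N) := by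
  rw [tang_word]
  unfold pr
  apply Finset.sum_congr rfl
  intro p _
  generalize (on23 (crossN N v)) ^ a * (on12 (crossP N v)) ^ a = M
  have h : (M *ᵥ F0 v N) (p.1, (p.2, ⟨0, hN⟩)) =
      ∑ q : Fin N × Fin N, M (p.1, (p.2, ⟨0, hN⟩)) (⟨0, hN⟩, q) * cup N v q := by
    unfold Matrix.mulVec dotProduct
    rw [Fintype.sum_prod_type, Finset.sum_eq_single (⟨0, hN⟩ : Fin N)]
    · apply Finset.sum_congr rfl
      intro q _
      unfold F0
      rw [if_pos rfl]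
    · intro x _ hx
      apply Finset.sum_eq_zero
      intro q _
      unfold F0
      rw [if_neg (fun hc => hx (Fin.ext hc)), mul_zero]
    · intro h
      exact absurd (Finset.mem_univ _) h
  rw [h, Finset.mul_sum]
  apply Finset.sum_congr rfl
  intro q _
  ring

lemma Rhi_Fn {u : ℂ} (hu : Gen u) {φ : ∀ d : Fin N, Matrix (Fin N × Fin N) (Fin (cc N d)) ℂ}
    {ψ : ∀ d : Fin N, Matrix (Fin (cc N d)) (Fin N × Fin N) ℂ} (h : IsDec u N φ ψ) :
    Rhi u (irr (u ^ 2) N) (irr (u ^ 2) N) = Fn φ ψ (fun d => (lam u N d)⁻¹) := by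
  have hu0 : u ≠ 0 := hu.1
  have hv : u ^ 2 ≠ 0 := pow_ne_zero 2 hu0
  apply Fn_eq h
  intro d
  have hl : lam u N d ≠ 0 := by
    unfold lam
    exact mul_ne_zero (pow_ne_zero _ (by norm_num)) (zpow_ne_zero _ hu0)
  have h1 := (Pool.Agent.H345J.taskInv u hu _ _ (irr (u ^ 2) N) (irr (u ^ 2) N)
    ((Pool.Agent.H345J.taskMod (u ^ 2) hv).1 N) ((Pool.Agent.H345J.taskMod (u ^ 2) hv).1 N)).1
  calc Rhi u (irr (u ^ 2) N) (irr (u ^ 2) N) * φ d =
      (lam u N d)⁻¹ • (Rhi u (irr (u ^ 2) N) (irr (u ^ 2) N) * (lam u N d • φ d)) := by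
        rw [Matrix.mul_smul, smul_smul, inv_mul_cancel₀ hl, one_smul]
    _ = (lam u N d)⁻¹ • φ d := by
        rw [← h.eig d, ← Matrix.mul_assoc, h1, Matrix.one_mul]

lemma Fn_smul (φ : ∀ d : Fin N, Matrix (Fin N × Fin N) (Fin (cc N d)) ℂ)
    (ψ : ∀ d : Fin N, Matrix (Fin (cc N d)) (Fin N × Fin N) ℂ) (a : ℂ) (g : Fin N → ℂ) :
    Fn φ ψ (fun d => a * g d) = a • Fn φ ψ g := by
  unfold Fn
  rw [Finset.smul_sum]
  apply Finset.sum_congr rfl
  intro d _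
  rw [mul_smul]

lemma ui_inj {u : ℂ} (hu : Gen u) : Set.InjOn (ui (u ^ 2)) (range N) := by
  rcases Nat.eq_zero_or_pos N with h0 | h0
  · subst h0
    simp
  · have hv : u ^ 2 ≠ 0 := pow_ne_zero 2 hu.1
    have h := Pool.Agent.W709.VC.uu_inj hv (n := N - 1) (by
      unfold EvenVol.brf
      rw [Finset.prod_ne_zero_iff]
      intro j _
      have := hu.2 (j + 1) (by omega)
      push_cast at this
      exact this)
    rw [show N - 1 + 1 = N by omega] at h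
    exact h

/-- at generic `v` the invariant of the (1,1)-tangle is `JD` -/
theorem tang_generic {u : ℂ} (hu : Gen u) (hN : 0 < N) (a : ℕ) :
    tang N (word a) (u ^ 2) ⟨0, hN⟩ ⟨0, hN⟩ =
      Pool.Agent.H112R4.VL.JD (a : ℤ) (-(a : ℤ)) N (u ^ 2) := by
  have hu0 : u ≠ 0 := hu.1
  have hv : u ^ 2 ≠ 0 := pow_ne_zero 2 hu0
  obtain ⟨φ, ψ, h⟩ := Pool.Agent.H897R.J.taskDec Pool.Agent.H345J.taskMod Pool.Agent.H345J.taskInt
    u hu N
  have hR : Rh u (irr (u ^ 2) N) (irr (u ^ 2) N) = Fn φ ψ (lam u N) := Fn_eq h _ _ h.eig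
  obtain ⟨hP, hQ⟩ := Pool.Agent.H559R3.J.taskCross u hu N
  set g : ℕ → ℂ := fun c => TT (u ^ 2) c ^ a with hg
  set g' : ℕ → ℂ := fun c => (TT (u ^ 2) c ^ a)⁻¹ with hg'
  have hfr : fr u N ≠ 0 := by
    unfold fr
    exact mul_ne_zero (pow_ne_zero _ (by norm_num)) (zpow_ne_zero _ hu0)
  have h1 : (on12 (crossP N (u ^ 2))) ^ a = ((u ^ (-((N : ℤ) ^ 2 - 1))) ^ a * fr u N ^ a) •
      on12 (Fn φ ψ (fun d => g (N - 1 - d))) := by
    rw [hP, hR, on12_pow, smul_pow, Fn_pow h]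
    have : (fun d => lam u N d ^ a) = fun d : Fin N => fr u N ^ a * g (N - 1 - d) := by
      funext d
      rw [lam_eq hu0, mul_pow]
    rw [this, Fn_smul, smul_smul, on12_smul]
  have h2 : (on23 (crossN N (u ^ 2))) ^ a = ((u ^ ((N : ℤ) ^ 2 - 1)) ^ a * (fr u N ^ a)⁻¹) •
      on23 (Fn φ ψ (fun d => g' (N - 1 - d))) := by
    rw [hQ, Rhi_Fn hu h, on23_pow, smul_pow, Fn_pow h]
    have : (fun d => (lam u N d)⁻¹ ^ a) = fun d : Fin N => (fr u N ^ a)⁻¹ * g' (N - 1 - d) := by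
      funext d
      rw [lam_eq hu0, inv_pow, mul_pow, mul_inv]
    rw [this, Fn_smul, smul_smul, on23_smul]
  have h3 : (u ^ ((N : ℤ) ^ 2 - 1)) ^ a * (fr u N ^ a)⁻¹ *
      ((u ^ (-((N : ℤ) ^ 2 - 1))) ^ a * fr u N ^ a) = 1 := by
    have e1 : (u ^ ((N : ℤ) ^ 2 - 1)) ^ a * (u ^ (-((N : ℤ) ^ 2 - 1))) ^ a = 1 := by
      rw [← mul_pow, ← zpow_add₀ hu0, add_neg_cancel, zpow_zero, one_pow]
    have e2 : (fr u N ^ a)⁻¹ * fr u N ^ a = 1 := inv_mul_cancel₀ (pow_ne_zero _ hfr)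
    calc _ = ((u ^ ((N : ℤ) ^ 2 - 1)) ^ a * (u ^ (-((N : ℤ) ^ 2 - 1))) ^ a) *
        ((fr u N ^ a)⁻¹ * fr u N ^ a) := by ring
      _ = 1 := by rw [e1, e2, one_mul]
  rw [tang_pr, h1, h2, smul_mul_smul_comm, h3, one_smul, ← Matrix.mulVec_mulVec]
  have hb : ∀ k : ℕ, 0 < k → k < N → br (u ^ 2) k ≠ 0 := fun k hk _ => hu.2 k hk
  rw [eval_pair hu0 h hN hb (ui_inj hu)]
  unfold Pool.Agent.H112R4.VL.JD
  apply Finset.sum_congr rfl
  intro i hi
  have hbrf : EvenVol.brf (u ^ 2) (2 * i + 1) ≠ 0 := by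
    unfold EvenVol.brf
    rw [Finset.prod_ne_zero_iff]
    intro j _
    have := hu.2 (j + 1) (by omega)
    push_cast at this
    exact this
  rw [Pool.Agent.W709.VC.gamH_nodes hv _ hbrf, Pool.Agent.W709.VC.gamH_nodes hv _ hbrf]
  have e1 : ∑ k ∈ range (i + 1), Lagrange.nodalWeight (range (i + 1))
      (fun j : ℕ => Pool.Agent.W709.VC.uu (u ^ 2) (j : ℤ)) k *
        ((-1) ^ k * (u ^ 2) ^ (k * (k + 1))) ^ (a : ℤ) = dd (ui (u ^ 2)) g i := by
    unfold dd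
    apply Finset.sum_congr rfl
    intro k _
    rw [zpow_natCast]
    rfl
  have e2 : ∑ k ∈ range (i + 1), Lagrange.nodalWeight (range (i + 1))
      (fun j : ℕ => Pool.Agent.W709.VC.uu (u ^ 2) (j : ℤ)) k *
        ((-1) ^ k * (u ^ 2) ^ (k * (k + 1))) ^ (-(a : ℤ)) = dd (ui (u ^ 2)) g' i := by
    unfold dd
    apply Finset.sum_congr rfl
    intro k _
    rw [_root_.zpow_neg, zpow_natCast]
    rfl
  rw [e1, e2]
  have e3 : ∏ l ∈ range i, ci (u ^ 2) N (l + 1) = (-1) ^ i *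
      (∏ j ∈ range i, (EvenVol.br (u ^ 2) ((N : ℤ) + ((j : ℤ) + 1)) *
        EvenVol.br (u ^ 2) ((N : ℤ) - ((j : ℤ) + 1)))) *
        (EvenVol.brf (u ^ 2) i * EvenVol.brf (u ^ 2) i) := by
    have : ((-1 : ℂ)) ^ i = ∏ _j ∈ range i, (-1 : ℂ) := by simp
    rw [this]
    unfold EvenVol.brf
    rw [← Finset.prod_mul_distrib, ← Finset.prod_mul_distrib, ← Finset.prod_mul_distrib]
    apply Finset.prod_congr rfl
    intro l _
    unfold ci EvenVol.br br
    push_cast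
    ring
  rw [e3]
  ring

/-- the same for all `v` off the unit circle -/
theorem tang_off {v : ℂ} (hv : v ≠ 0) (hv1 : ‖v‖ ≠ 1) (hN : 0 < N) (a : ℕ) :
    tang N (word a) v ⟨0, hN⟩ ⟨0, hN⟩ = Pool.Agent.H112R4.VL.JD (a : ℤ) (-(a : ℤ)) N v := by
  obtain ⟨u, hu⟩ : ∃ u : ℂ, u ^ 2 = v := ⟨v ^ (1 / 2 : ℂ), by
    rw [← Complex.cpow_nat_mul]
    norm_num⟩
  have hg : Gen u := by
    refine ⟨fun h0 => hv (by rw [← hu, h0]; norm_num), fun n hn hbr => ?_⟩
    rw [hu] at hbr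
    unfold br at hbr
    have h1 : v ^ (n : ℤ) = v ^ (-(n : ℤ)) := sub_eq_zero.1 hbr
    have h2 : v ^ (2 * n) = 1 := by
      have : v ^ (2 * n) = v ^ (n : ℤ) * v ^ (n : ℤ) := by
        rw [← zpow_add₀ hv, ← two_mul]
        exact_mod_cast (zpow_natCast v (2 * n)).symm
      rw [this]
      nth_rewrite 2 [h1]
      rw [← zpow_add₀ hv, add_neg_cancel, zpow_zero]
    have h3 : ‖v‖ ^ (2 * n) = 1 := by rw [← norm_pow, h2, norm_one]
    exact hv1 ((pow_eq_one_iff_of_nonneg (norm_nonneg v) (by omega)).1 h3)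
  have := tang_generic hg hN a
  rwa [hu] at this

/-- continuity -/
theorem tang_cont {v : ℂ} (hv : v ≠ 0) (hb : ∀ k : ℕ, 0 < k → k < N → br v k ≠ 0)
    (w : List (ℕ × Bool)) (i j : Fin N) : ContinuousAt (fun v => tang N w v i j) v := by
  have hkap : ∀ k : ℕ, ContinuousAt (fun v => kap N v k) v := by
    intro k
    unfold kap
    rcases Nat.eq_zero_or_pos N with h0 | h0
    · exact absurd i.isLt (by omega)
    · refine (continuousAt_const.mul (Pool.Agent.H756R3.J.zpow_cont hv _)).mul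
        (((Pool.Agent.H756R3.J.brf_cont hv _).mul (Pool.Agent.H756R3.J.brf_cont hv _)).div
          (Pool.Agent.H756R3.J.brf_cont hv _) (brf_ne' hb (by omega)))
  unfold tang
  refine tendsto_finsetSum _ fun p _ => tendsto_finsetSum _ fun q _ => ?_
  refine ContinuousAt.mul (ContinuousAt.mul ?_ ?_) ?_
  · unfold cap
    by_cases h : (p.1 : ℕ) + p.2 = N - 1
    · simp only [if_pos h]
      exact (hkap _).inv₀ (kap_ne hv hb p.2.isLt)
    · simp only [if_neg h]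
      exact continuousAt_const
  · exact Pool.Agent.H756R3.J.rep_cont (fun v => crossP N v) (fun v => crossN N v) v
      (Pool.Agent.H756R3.J.crossP_cont hv hb) (Pool.Agent.H756R3.J.crossN_cont hv hb) 3 w _ _
  · unfold cup
    by_cases h : (q.1 : ℕ) + q.2 = N - 1
    · simp only [if_pos h]
      exact hkap _
    · simp only [if_neg h]
      exact continuousAt_const

end Pool.Agent.W709.RT
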