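import Mathlib

/-! Newton interpolation with divided differences. -/

set_option autoImplicit false

namespace Pool.Agent.W709.RT

open Finset Polynomial

/-- divided difference at the nodes `0, …, i` -/
noncomputable def dd (u g : ℕ → ℂ) (i : ℕ) : ℂ :=
  ∑ k ∈ range (i + 1), Lagrange.nodalWeight (range (i + 1)) u k * g k

lemma interp_succ (u g : ℕ → ℂ) (n : ℕ) (h : Set.InjOn u (range (n + 1))) :
    Lagrange.interpolate (range (n + 1)) u g =
      Lagrange.interpolate (range n) u g + C (dd u g n) * Lagrange.nodal (range n) u := by
  have h' : Set.InjOn u (range n) := h.mono (by intro x hx; simp at hx ⊢; omega)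
  rw [← sub_eq_zero]
  set P := Lagrange.interpolate (range (n + 1)) u g with hP
  set Q := Lagrange.interpolate (range n) u g with hQ
  have dP : P.degree < ((n + 1 : ℕ) : WithBot ℕ) := by
    have := Lagrange.degree_interpolate_lt g h
    rwa [Finset.card_range] at this
  have dQ : Q.degree < (n : WithBot ℕ) := by
    have := Lagrange.degree_interpolate_lt g h'
    rwa [Finset.card_range] at this
  have dN : (C (dd u g n) * Lagrange.nodal (range n) u).degree ≤ (n : WithBot ℕ) := by
    refine (degree_mul_le _ _).trans ?_
    rw [Lagrange.degree_nodal, Finset.card_range]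
    calc (C (dd u g n)).degree + (n : WithBot ℕ) ≤ 0 + (n : WithBot ℕ) := by
          gcongr
          exact degree_C_le
      _ = n := zero_add _
  have hc : P.coeff n = dd u g n := by
    have h1 := Lagrange.coeff_eq_sum (s := range (n + 1)) (v := u) h (P := P)
      (by rw [Finset.card_range]; exact dP)
    rw [Finset.card_range, Nat.add_sub_cancel] at h1
    rw [h1, dd]
    apply Finset.sum_congr rfl
    intro k hk
    rw [hP, Lagrange.eval_interpolate_at_node g h hk, Lagrange.nodalWeight, Finset.prod_inv_distrib,
      div_eq_inv_mul]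
  have hd : (P - (Q + C (dd u g n) * Lagrange.nodal (range n) u)).degree < (n : WithBot ℕ) := by
    rw [degree_lt_iff_coeff_zero]
    intro m hm
    rw [coeff_sub, coeff_add]
    rcases eq_or_lt_of_le hm with rfl | hm'
    · have e1 : Q.coeff n = 0 := coeff_eq_zero_of_degree_lt dQ
      have e2 : (Lagrange.nodal (range n) u).coeff n = 1 := by
        have := (Lagrange.nodal_monic (s := range n) (v := u)).coeff_natDegree
        rwa [Lagrange.natDegree_nodal, Finset.card_range] at this
      rw [hc, e1, coeff_C_mul, e2]
      ring
    · have e0 : P.coeff m = 0 := coeff_eq_zero_of_degree_lt (lt_of_lt_of_le dP (by exact_mod_cast hm'))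
      have e1 : Q.coeff m = 0 := coeff_eq_zero_of_degree_lt (lt_of_lt_of_le dQ (by exact_mod_cast hm))
      have e2 : (C (dd u g n) * Lagrange.nodal (range n) u).coeff m = 0 :=
        coeff_eq_zero_of_degree_lt (lt_of_le_of_lt dN (by exact_mod_cast hm'))
      rw [e0, e1, e2]
      ring
  refine Polynomial.eq_zero_of_degree_lt_of_eval_index_eq_zero (s := range n) (v := u) h' ?_ ?_
  · rw [Finset.card_range]
    exact hd
  · intro i hi
    have hi' : i ∈ range (n + 1) := by simp at hi ⊢; omega
    rw [eval_sub, eval_add, eval_mul, Lagrange.eval_nodal_at_node hi, hP, hQ,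
      Lagrange.eval_interpolate_at_node g h hi', Lagrange.eval_interpolate_at_node g h' hi]
    ring

lemma interp_newton (u g : ℕ → ℂ) (n : ℕ) (h : Set.InjOn u (range n)) :
    Lagrange.interpolate (range n) u g =
      ∑ i ∈ range n, C (dd u g i) * Lagrange.nodal (range i) u := by
  induction n with
  | zero => simp
  | succ n ih =>
    have h' : Set.InjOn u (range n) := h.mono (by intro x hx; simp at hx ⊢; omega)
    rw [interp_succ u g n h, ih h', Finset.sum_range_succ]

theorem newton (u g : ℕ → ℂ) (n : ℕ) (h : Set.InjOn u (range n)) (c : ℕ) (hc : c < n) :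
    g c = ∑ i ∈ range n, dd u g i * ∏ j ∈ range i, (u c - u j) := by
  have h1 := congrArg (fun P => eval (u c) P) (interp_newton u g n h)
  rw [Lagrange.eval_interpolate_at_node g h (Finset.mem_range.2 hc)] at h1
  rw [h1, eval_finsetSum]
  apply Finset.sum_congr rfl
  intro i _
  rw [eval_mul, eval_C, Lagrange.eval_nodal]

end Pool.Agent.W709.RT
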