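import Pool.Agent.W709.RT.Orth3
import Pool.Agent.W709.RT.Newton
import Pool.Agent.W709.VC.Gam1
import Pool.Agent.H897R.J.DecD
import Pool.Agent.H559R3.J.Cross

/-! The invariant of the (1,1)-tangle at generic `v` is `JD`. -/

set_option autoImplicit false
set_option maxHeartbeats 1000000

namespace Pool.Agent.W709.RT

open Finset Matrix Pool.Agent.H550R3.Jones
open scoped Kronecker

variable {N : ℕ}

section lin

variable {ι : Type} [Fintype ι] [DecidableEq ι]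

lemma on12_one : on12 (1 : Matrix (ι × ι) (ι × ι) ℂ) = 1 := by
  ext p q
  simp only [on12, Matrix.one_apply]
  by_cases h : p = q
  · subst h; simp
  · rw [if_neg h]
    by_cases h2 : p.2.2 = q.2.2
    · rw [if_pos h2, if_neg]
      intro hc
      apply h
      have := Prod.ext_iff.1 hc
      exact Prod.ext this.1 (Prod.ext this.2 h2)
    · rw [if_neg h2]

lemma on23_one : on23 (1 : Matrix (ι × ι) (ι × ι) ℂ) = 1 := by
  rw [on23_eq, one_kronecker_one]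

lemma on12_pow (A : Matrix (ι × ι) (ι × ι) ℂ) (n : ℕ) : on12 A ^ n = on12 (A ^ n) := by
  induction n with
  | zero => rw [pow_zero, pow_zero, on12_one]
  | succ n ih => rw [pow_succ, pow_succ, ih, on12_mul]

lemma on23_pow (A : Matrix (ι × ι) (ι × ι) ℂ) (n : ℕ) : on23 A ^ n = on23 (A ^ n) := by
  induction n with
  | zero => rw [pow_zero, pow_zero, on23_one]
  | succ n ih => rw [pow_succ, pow_succ, ih, on23_mul]

lemma on12_smul (a : ℂ) (A : Matrix (ι × ι) (ι × ι) ℂ) : on12 (a • A) = a • on12 A := by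
  ext p q
  simp only [on12, Matrix.smul_apply, smul_eq_mul]
  split_ifs <;> simp

lemma on23_smul (a : ℂ) (A : Matrix (ι × ι) (ι × ι) ℂ) : on23 (a • A) = a • on23 A := by
  ext p q
  simp only [on23, Matrix.smul_apply, smul_eq_mul]
  split_ifs <;> simp

lemma on12_sum (s : Finset ℕ) (B : ℕ → Matrix (ι × ι) (ι × ι) ℂ) :
    on12 (∑ i ∈ s, B i) = ∑ i ∈ s, on12 (B i) := by
  ext p q
  simp only [on12, Matrix.sum_apply]
  split_ifs <;> simp

lemma on23_sum (s : Finset ℕ) (B : ℕ → Matrix (ι × ι) (ι × ι) ℂ) :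
    on23 (∑ i ∈ s, B i) = ∑ i ∈ s, on23 (B i) := by
  ext p q
  simp only [on23, Matrix.sum_apply]
  split_ifs <;> simp

lemma on12_sub (A B : Matrix (ι × ι) (ι × ι) ℂ) : on12 (A - B) = on12 A - on12 B := by
  ext p q
  simp only [on12, Matrix.sub_apply]
  split_ifs <;> simp

lemma on23_sub (A B : Matrix (ι × ι) (ι × ι) ℂ) : on23 (A - B) = on23 A - on23 B := by
  ext p q
  simp only [on23, Matrix.sub_apply]
  split_ifs <;> simp

end lin

lemma UU_eq (v : ℂ) (d : Fin N) : UU v N d = ui v (N - 1 - d) := by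
  unfold UU ui cc
  have hd := d.isLt
  have : (((2 * N - 1 - 2 * (d : ℕ) : ℕ)) : ℤ) = 2 * ((N - 1 - (d : ℕ) : ℕ) : ℤ) + 1 := by omega
  rw [this]

/-- the twist eigenvalue -/
noncomputable def TT (v : ℂ) (c : ℕ) : ℂ := (-1) ^ c * v ^ (c * (c + 1))

/-- the framing factor -/
noncomputable def fr (u : ℂ) (N : ℕ) : ℂ := (-1) ^ (N - 1) * u ^ (-((N : ℤ) ^ 2 - 1))

lemma lam_eq {u : ℂ} (hu : u ≠ 0) (d : Fin N) : lam u N d = fr u N * TT (u ^ 2) (N - 1 - d) := by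
  unfold lam fr TT cc
  have hd := d.isLt
  have h1 : (((((2 * N - 1 - 2 * (d : ℕ) : ℕ)) : ℤ) ^ 2 - 1) / 2 - ((N : ℤ) ^ 2 - 1)) =
      -((N : ℤ) ^ 2 - 1) + ((2 * ((N - 1 - (d : ℕ)) * (N - 1 - (d : ℕ) + 1)) : ℕ) : ℤ) := by
    obtain ⟨c, hc⟩ : ∃ c, N - 1 - (d : ℕ) = c := ⟨_, rfl⟩
    have e : (((2 * N - 1 - 2 * (d : ℕ) : ℕ)) : ℤ) = 2 * (c : ℤ) + 1 := by omega
    rw [e, hc]
    have e2 : ((2 * (c : ℤ) + 1) ^ 2 - 1) / 2 = 2 * ((c : ℤ) * (c + 1)) := by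
      have : (2 * (c : ℤ) + 1) ^ 2 - 1 = 2 * (2 * ((c : ℤ) * (c + 1))) := by ring
      rw [this]
      exact Int.mul_ediv_cancel_left _ (by norm_num)
    rw [e2]
    push_cast
    ring
  rw [h1, zpow_add₀ hu, zpow_natCast, pow_mul]
  have h2 : (-1 : ℂ) ^ (d : ℕ) = (-1) ^ (N - 1) * (-1) ^ (N - 1 - (d : ℕ)) := by
    rw [← pow_add]
    have : N - 1 + (N - 1 - (d : ℕ)) = (d : ℕ) + 2 * (N - 1 - (d : ℕ)) := by omega
    rw [this, pow_add, pow_mul]
    norm_num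
  rw [h2]
  ring

variable {u : ℂ} {φ : ∀ d : Fin N, Matrix (Fin N × Fin N) (Fin (cc N d)) ℂ}
  {ψ : ∀ d : Fin N, Matrix (Fin (cc N d)) (Fin N × Fin N) ℂ}

/-- `∏_{j<i} (U_d - u_j)` -/
noncomputable def PP (v : ℂ) (N i : ℕ) (d : Fin N) : ℂ := ∏ j ∈ range i, (UU v N d - ui v j)

lemma cas_sub (hu : u ≠ 0) (h : IsDec u N φ ψ) (a : ℂ) :
    cas (u ^ 2) (W (u ^ 2) N) - a • 1 = Fn φ ψ (fun d => UU (u ^ 2) N d - a) := by
  apply Fn_eq h
  intro d
  rw [Matrix.sub_mul, cas_Fn hu h, Matrix.smul_mul, Matrix.one_mul, sub_smul]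
  congr 1
  unfold Fn
  rw [Matrix.sum_mul, Finset.sum_eq_single d]
  · rw [Matrix.smul_mul, Matrix.mul_assoc, h.one d, Matrix.mul_one]
  · intro e _ he
    rw [Matrix.smul_mul, Matrix.mul_assoc, h.orth e d he, Matrix.mul_zero, smul_zero]
  · intro h
    exact absurd (Finset.mem_univ _) h

lemma FF_eq (hu : u ≠ 0) (h : IsDec u N φ ψ) (i : ℕ) :
    on12 (Fn φ ψ (PP (u ^ 2) N i)) *ᵥ F0 (u ^ 2) N = FF (u ^ 2) N i := by
  induction i with
  | zero =>
    have : PP (u ^ 2) N 0 = fun _ => 1 := by funext d; simp [PP]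
    rw [this, Fn_one h, on12_one, Matrix.one_mulVec]
    rfl
  | succ i ih =>
    have h1 : PP (u ^ 2) N (i + 1) = fun d => (UU (u ^ 2) N d - ui (u ^ 2) i) * PP (u ^ 2) N i d := by
      funext d
      unfold PP
      rw [Finset.prod_range_succ]
      ring
    rw [h1, Fn_mul h, ← cas_sub hu h, on12_mul, ← Matrix.mulVec_mulVec, ih, on12_sub, on12_smul,
      on12_one, Matrix.sub_mulVec, Matrix.smul_mulVec, Matrix.one_mulVec]
    rfl

lemma MM_eq (hu : u ≠ 0) (h : IsDec u N φ ψ) (j : ℕ) :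
    on23 (Fn φ ψ (PP (u ^ 2) N j)) = MM (u ^ 2) N j := by
  induction j with
  | zero =>
    have : PP (u ^ 2) N 0 = fun _ => 1 := by funext d; simp [PP]
    rw [this, Fn_one h, on23_one]
    rfl
  | succ j ih =>
    have h1 : PP (u ^ 2) N (j + 1) = fun d => PP (u ^ 2) N j d * (UU (u ^ 2) N d - ui (u ^ 2) j) := by
      funext d
      unfold PP
      rw [Finset.prod_range_succ]
    rw [h1, Fn_mul h, ← cas_sub hu h, on23_mul, ih, on23_sub, on23_smul, on23_one]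
    rfl

/-- Newton expansion of a function of the decomposition -/
lemma Fn_newton (hinj : Set.InjOn (ui (u ^ 2)) (range N)) (g : ℕ → ℂ) :
    Fn φ ψ (fun d => g (N - 1 - d)) =
      ∑ i ∈ range N, dd (ui (u ^ 2)) g i • Fn φ ψ (PP (u ^ 2) N i) := by
  rw [← Fn_sum]
  congr 1
  funext d
  have hd := d.isLt
  rw [newton (ui (u ^ 2)) g N hinj (N - 1 - d) (by omega)]
  apply Finset.sum_congr rfl
  intro i _
  unfold PP
  rw [UU_eq]

lemma pr_sum {v : ℂ} (hN : 0 < N) (s : Finset ℕ) (a : ℕ → ℂ)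
    (w : ℕ → Fin N × (Fin N × Fin N) → ℂ) :
    pr v hN (∑ i ∈ s, a i • w i) = ∑ i ∈ s, a i * pr v hN (w i) := by
  unfold pr
  simp only [Finset.sum_apply, Pi.smul_apply, smul_eq_mul, Finset.mul_sum]
  rw [Finset.sum_comm]
  apply Finset.sum_congr rfl
  intro i _
  apply Finset.sum_congr rfl
  intro p _
  ring

/-- the bilinear evaluation -/
lemma eval_pair (hu : u ≠ 0) (h : IsDec u N φ ψ) (hN : 0 < N)
    (hb : ∀ k : ℕ, 0 < k → k < N → br (u ^ 2) k ≠ 0)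
    (hinj : Set.InjOn (ui (u ^ 2)) (range N)) (g g' : ℕ → ℂ) :
    pr (u ^ 2) hN (on23 (Fn φ ψ (fun d => g' (N - 1 - d))) *ᵥ
      (on12 (Fn φ ψ (fun d => g (N - 1 - d))) *ᵥ F0 (u ^ 2) N)) =
    ∑ i ∈ range N, dd (ui (u ^ 2)) g i * dd (ui (u ^ 2)) g' i *
      ∏ l ∈ range i, ci (u ^ 2) N (l + 1) := by
  have hv : u ^ 2 ≠ 0 := pow_ne_zero 2 hu
  rw [Fn_newton hinj g, Fn_newton hinj g', on12_sum, on23_sum]
  simp only [on12_smul, on23_smul]
  rw [Matrix.sum_mulVec]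
  simp only [Matrix.smul_mulVec, MM_eq hu h]
  rw [Matrix.sum_mulVec]
  simp only [Matrix.smul_mulVec, Matrix.mulVec_sum, Matrix.mulVec_smul, FF_eq hu h]
  rw [pr_sum]
  have h1 : ∀ j ∈ range N, dd (ui (u ^ 2)) g' j * pr (u ^ 2) hN (∑ i ∈ range N,
      dd (ui (u ^ 2)) g i • (MM (u ^ 2) N j *ᵥ FF (u ^ 2) N i)) =
      dd (ui (u ^ 2)) g j * dd (ui (u ^ 2)) g' j * ∏ l ∈ range j, ci (u ^ 2) N (l + 1) := by
    intro j hj
    rw [pr_sum, Finset.sum_eq_single j]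
    · rw [orth hv hb hN j j, if_pos rfl]
      ring
    · intro i _ hij
      rw [orth hv hb hN j i, if_neg hij, mul_zero]
    · intro h
      exact absurd hj h
  exact Finset.sum_congr rfl h1

end Pool.Agent.W709.RT
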