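import Pool.Agent.W709.RT.Defs

/-! Functional calculus for the decomposition of `V_N ⊗ V_N`; the Casimir operator. -/

set_option autoImplicit false

namespace Pool.Agent.W709.RT

open Finset Matrix Pool.Agent.H550R3.Jones
open scoped Kronecker

section Fn

variable {u : ℂ} {N : ℕ} {φ : ∀ d : Fin N, Matrix (Fin N × Fin N) (Fin (cc N d)) ℂ}
  {ψ : ∀ d : Fin N, Matrix (Fin (cc N d)) (Fin N × Fin N) ℂ}

/-- functions of the decomposition -/
noncomputable def Fn (φ : ∀ d : Fin N, Matrix (Fin N × Fin N) (Fin (cc N d)) ℂ)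
    (ψ : ∀ d : Fin N, Matrix (Fin (cc N d)) (Fin N × Fin N) ℂ) (g : Fin N → ℂ) :
    Matrix (Fin N × Fin N) (Fin N × Fin N) ℂ := ∑ d, g d • (φ d * ψ d)

lemma Fn_one (h : IsDec u N φ ψ) : Fn φ ψ (fun _ => 1) = 1 := by
  unfold Fn
  simp only [one_smul]
  exact h.sum

lemma Fn_mul (h : IsDec u N φ ψ) (g g' : Fin N → ℂ) :
    Fn φ ψ (fun d => g d * g' d) = Fn φ ψ g * Fn φ ψ g' := by
  unfold Fn
  rw [Finset.sum_mul]
  apply Finset.sum_congr rfl
  intro d _
  rw [Finset.mul_sum, Finset.sum_eq_single d]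
  · rw [smul_mul_smul_comm]
    congr 1
    calc φ d * ψ d = φ d * (1 : Matrix (Fin (cc N d)) (Fin (cc N d)) ℂ) * ψ d := by rw [Matrix.mul_one]
      _ = φ d * (ψ d * φ d) * ψ d := by rw [h.one d]
      _ = φ d * ψ d * (φ d * ψ d) := by simp only [Matrix.mul_assoc]
  · intro e _ hne
    rw [smul_mul_smul_comm]
    have : φ d * ψ d * (φ e * ψ e) = 0 := by
      calc φ d * ψ d * (φ e * ψ e) = φ d * (ψ d * φ e) * ψ e := by simp only [Matrix.mul_assoc]
        _ = 0 := by rw [h.orth d e (Ne.symm hne), Matrix.mul_zero, Matrix.zero_mul]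
    rw [this, smul_zero]
  · intro hd
    exact absurd (Finset.mem_univ d) hd

lemma Fn_eq (h : IsDec u N φ ψ) (A : Matrix (Fin N × Fin N) (Fin N × Fin N) ℂ) (g : Fin N → ℂ)
    (hA : ∀ d, A * φ d = g d • φ d) : A = Fn φ ψ g := by
  unfold Fn
  calc A = A * ∑ d, φ d * ψ d := by rw [h.sum, Matrix.mul_one]
    _ = ∑ d, A * (φ d * ψ d) := by rw [Finset.mul_sum]
    _ = ∑ d, g d • (φ d * ψ d) := by
      apply Finset.sum_congr rfl
      intro d _
      rw [← Matrix.mul_assoc, hA d, Matrix.smul_mul]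

lemma Fn_sum (s : Finset ℕ) (a : ℕ → ℂ) (g : ℕ → Fin N → ℂ) :
    Fn φ ψ (fun d => ∑ i ∈ s, a i * g i d) = ∑ i ∈ s, a i • Fn φ ψ (g i) := by
  unfold Fn
  simp only [Finset.smul_sum, Finset.sum_smul, mul_smul]
  rw [Finset.sum_comm]

lemma Fn_pow (h : IsDec u N φ ψ) (g : Fin N → ℂ) (n : ℕ) :
    Fn φ ψ g ^ n = Fn φ ψ (fun d => g d ^ n) := by
  induction n with
  | zero => simp only [pow_zero]; exact (Fn_one h).symm
  | succ n ih =>
    rw [pow_succ, ih]
    simp only [pow_succ]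
    exact (Fn_mul h _ _).symm

end Fn

section Cas

variable {ι κ : Type} [Fintype ι] [DecidableEq ι] [Fintype κ] [DecidableEq κ]

/-- the Casimir operator -/
noncomputable def cas (v : ℂ) (M : WM ι) : Matrix ι ι ℂ :=
  M.F * M.E + v • M.K v 1 + v⁻¹ • M.K v (-1)

lemma int_K {v : ℂ} {M : WM ι} {M' : WM κ} {f : Matrix κ ι ℂ} (h : IsInt M M' f) (e : ℤ) :
    f * M.K v e = M'.K v e * f := by
  ext i j
  unfold WM.K
  rw [mul_diagonal, diagonal_mul]
  by_cases h0 : f i j = 0
  · rw [h0]; ring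
  · rw [h.k i j h0]; ring

lemma cas_int {v : ℂ} {M : WM ι} {M' : WM κ} {f : Matrix κ ι ℂ} (h : IsInt M M' f) :
    f * cas v M = cas v M' * f := by
  unfold cas
  rw [Matrix.mul_add, Matrix.mul_add, Matrix.add_mul, Matrix.add_mul, ← Matrix.mul_assoc, h.f,
    Matrix.mul_assoc, h.e, Matrix.mul_assoc, Matrix.mul_smul, Matrix.mul_smul, Matrix.smul_mul,
    Matrix.smul_mul, int_K h, int_K h]

lemma cas_E {v : ℂ} (hv : v ≠ 0) {M : WM ι} (h : IsMod v M) :
    M.E * cas v M = cas v M * M.E := by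
  have hEF : M.E * M.F = M.F * M.E + diagonal fun i => br v 1 * br v (M.wt i) := by
    rw [← h.comm]; abel
  have hK : v • (M.K v 1 * M.E) + v⁻¹ • (M.K v (-1) * M.E) =
      (diagonal fun i => br v 1 * br v (M.wt i)) * M.E + v • (M.E * M.K v 1) +
        v⁻¹ • (M.E * M.K v (-1)) := by
    ext i j
    unfold WM.K
    simp only [Matrix.add_apply, Matrix.smul_apply, diagonal_mul, mul_diagonal, smul_eq_mul]
    by_cases h0 : M.E i j = 0
    · rw [h0]; ring
    · have hw := h.hE i j h0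
      have e1 : v ^ (1 * M.wt i) = v ^ (M.wt j) * v * v := by
        rw [one_mul, hw, zpow_add₀ hv, mul_assoc]
        congr 1
        rw [show (2 : ℤ) = 1 + 1 by norm_num, zpow_add₀ hv, zpow_one]
      have e2 : v ^ (-1 * M.wt i) = v ^ (-(M.wt j)) * v⁻¹ * v⁻¹ := by
        rw [neg_one_mul, hw, neg_add, zpow_add₀ hv, mul_assoc]
        congr 1
        rw [show (-2 : ℤ) = -1 + -1 by norm_num, zpow_add₀ hv, _root_.zpow_neg_one]
      have e3 : v ^ (M.wt i) = v ^ (M.wt j) * v * v := by rw [← e1, one_mul]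
      have e4 : v ^ (-(M.wt i)) = v ^ (-(M.wt j)) * v⁻¹ * v⁻¹ := by rw [← e2, neg_one_mul]
      rw [e1, e2]
      unfold br
      rw [e3, e4, one_mul, neg_one_mul]
      field_simp
      ring
  unfold cas
  calc M.E * (M.F * M.E + v • M.K v 1 + v⁻¹ • M.K v (-1)) =
      (M.E * M.F) * M.E + v • (M.E * M.K v 1) + v⁻¹ • (M.E * M.K v (-1)) := by
        rw [Matrix.mul_add, Matrix.mul_add, Matrix.mul_smul, Matrix.mul_smul, Matrix.mul_assoc]
    _ = M.F * M.E * M.E + ((diagonal fun i => br v 1 * br v (M.wt i)) * M.E +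
        v • (M.E * M.K v 1) + v⁻¹ • (M.E * M.K v (-1))) := by
        rw [hEF, Matrix.add_mul]; abel
    _ = M.F * M.E * M.E + (v • (M.K v 1 * M.E) + v⁻¹ • (M.K v (-1) * M.E)) := by rw [hK]
    _ = _ := by
        rw [Matrix.add_mul, Matrix.add_mul, Matrix.smul_mul, Matrix.smul_mul]; abel

lemma cas_K {v : ℂ} {M : WM ι} (h : IsMod v M) (e : ℤ) :
    M.K v e * cas v M = cas v M * M.K v e := by
  ext i j
  unfold WM.K
  rw [mul_diagonal, diagonal_mul]
  by_cases h0 : cas v M i j = 0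
  · rw [h0]; ring
  · have : M.wt i = M.wt j := by
      by_contra hne
      apply h0
      unfold cas WM.K
      simp only [Matrix.add_apply, Matrix.smul_apply, smul_eq_mul]
      have hij : i ≠ j := fun hc => hne (by rw [hc])
      rw [diagonal_apply_ne _ hij, diagonal_apply_ne _ hij, mul_zero, mul_zero, add_zero, add_zero,
        Matrix.mul_apply]
      apply Finset.sum_eq_zero
      intro k _
      by_contra hk
      have h1 := h.hF i k (left_ne_zero_of_mul hk)
      have h2 := h.hE k j (right_ne_zero_of_mul hk)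
      omega
    rw [this]; ring

lemma cas_irr {v : ℂ} (hv : v ≠ 0) (c : ℕ) :
    cas v (irr v c) = (v ^ (c : ℤ) + v ^ (-(c : ℤ))) • (1 : Matrix (Fin c) (Fin c) ℂ) := by
  ext i j
  unfold cas WM.K
  simp only [Matrix.add_apply, Matrix.smul_apply, smul_eq_mul, Matrix.mul_apply]
  have hFE : ∑ k, (irr v c).F i k * (irr v c).E k j =
      if i = j then br v ((i : ℕ) : ℤ) * br v ((c : ℤ) - (i : ℕ)) else 0 := by
    by_cases hi : (i : ℕ) = 0
    · have e0 : br v (((i : ℕ) : ℤ)) = 0 := by rw [hi]; simp [br]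
      rw [e0]
      have : ∀ k, (irr v c).F i k * (irr v c).E k j = 0 := by
        intro k
        have : (irr v c).F i k = 0 := by
          simp only [irr]
          rw [if_neg (by omega)]
        rw [this, zero_mul]
      rw [Finset.sum_eq_zero (fun k _ => this k)]
      simp
    · have hk : (i : ℕ) - 1 < c := by omega
      rw [Finset.sum_eq_single (⟨(i : ℕ) - 1, hk⟩ : Fin c)]
      · simp only [irr]
        rw [if_pos (by omega : (i : ℕ) = (i : ℕ) - 1 + 1)]
        by_cases hij : i = j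
        · subst hij
          rw [if_pos (by omega : (i : ℕ) = (i : ℕ) - 1 + 1), if_pos rfl]
        · rw [if_neg hij, if_neg, mul_zero]
          intro hc
          apply hij
          apply Fin.ext
          omega
      · intro k _ hne
        have : (irr v c).F i k = 0 := by
          simp only [irr]
          rw [if_neg]
          intro hc
          apply hne
          apply Fin.ext
          simp only
          omega
        rw [this, zero_mul]
      · intro h
        exact absurd (Finset.mem_univ _) h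
  rw [hFE]
  by_cases hij : i = j
  · subst hij
    rw [if_pos rfl, diagonal_apply_eq, diagonal_apply_eq, Matrix.one_apply_eq, mul_one]
    have hw : (irr v c).wt i = (c : ℤ) - 1 - 2 * (i : ℕ) := rfl
    rw [hw]
    unfold br
    have e1 : v * v ^ (1 * ((c : ℤ) - 1 - 2 * (i : ℕ))) = v ^ ((c : ℤ) - (i : ℕ)) * v ^ (-((i : ℕ) : ℤ)) := by
      rw [← zpow_add₀ hv, ← zpow_one_add₀ hv]
      congr 1
      ring
    have e2 : v⁻¹ * v ^ (-1 * ((c : ℤ) - 1 - 2 * (i : ℕ))) =
        v ^ (-((c : ℤ) - (i : ℕ))) * v ^ (((i : ℕ) : ℤ)) := by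
      rw [← zpow_add₀ hv, ← _root_.zpow_neg_one, ← zpow_add₀ hv]
      congr 1
      ring
    have e3 : v ^ (c : ℤ) = v ^ ((c : ℤ) - (i : ℕ)) * v ^ (((i : ℕ) : ℤ)) := by
      rw [← zpow_add₀ hv]
      congr 1
      ring
    have e4 : v ^ (-(c : ℤ)) = v ^ (-((c : ℤ) - (i : ℕ))) * v ^ (-((i : ℕ) : ℤ)) := by
      rw [← zpow_add₀ hv]
      congr 1
      ring
    rw [e1, e2, e3, e4]
    ring
  · rw [if_neg hij, diagonal_apply_ne _ hij, diagonal_apply_ne _ hij, Matrix.one_apply_ne hij]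
    ring

end Cas

/-- eigenvalue of the Casimir operator on the `d`-th summand -/
noncomputable def UU (v : ℂ) (N : ℕ) (d : Fin N) : ℂ := v ^ ((cc N d : ℕ) : ℤ) + v ^ (-((cc N d : ℕ) : ℤ))

lemma cas_Fn {u : ℂ} {N : ℕ} {φ : ∀ d : Fin N, Matrix (Fin N × Fin N) (Fin (cc N d)) ℂ}
    {ψ : ∀ d : Fin N, Matrix (Fin (cc N d)) (Fin N × Fin N) ℂ} (hu : u ≠ 0) (h : IsDec u N φ ψ) :
    cas (u ^ 2) (W (u ^ 2) N) = Fn φ ψ (UU (u ^ 2) N) := by
  apply Fn_eq h
  intro d
  rw [← cas_int (h.phi d), cas_irr (pow_ne_zero 2 hu), Matrix.mul_smul, Matrix.mul_one]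
  rfl

end Pool.Agent.W709.RT
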