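import Pool.Agent.H550R3.Jones.Stmts

/-!
# The (1,1)-tangle of a two-bridge link from the R-matrix of `U_q(sl_2)`
-/

set_option autoImplicit false

namespace Pool.Agent.W709.RT

open Finset Matrix Pool.Agent.H550R3.Jones

/-- coefficients of the invariant vector `∑_k kap k e_k ⊗ e_{N-1-k}` -/
noncomputable def kap (N : ℕ) (v : ℂ) (k : ℕ) : ℂ :=
  (-1) ^ k * v ^ ((k : ℤ) * ((N : ℤ) - 2 - k)) * (brf v k * brf v (N - 1 - k) / brf v (N - 1))

/-- the invariant vector of `V_N ⊗ V_N` -/
noncomputable def cup (N : ℕ) (v : ℂ) (p : Fin N × Fin N) : ℂ :=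
  if (p.1 : ℕ) + p.2 = N - 1 then kap N v p.1 else 0

/-- the invariant linear form on `V_N ⊗ V_N` -/
noncomputable def cap (N : ℕ) (v : ℂ) (p : Fin N × Fin N) : ℂ :=
  if (p.1 : ℕ) + p.2 = N - 1 then (kap N v p.2)⁻¹ else 0

/-- the operator of the (1,1)-tangle: a cup between the strands 2 and 3, the braid word `w` on three
strands, a cap between the strands 1 and 2 -/
noncomputable def tang (N : ℕ) (w : List (ℕ × Bool)) (v : ℂ) : Matrix (Fin N) (Fin N) ℂ :=
  fun i j => ∑ p : Fin N × Fin N, ∑ q : Fin N × Fin N,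
    cap N v p * rep (crossP N v) (crossN N v) 3 w ![p.1, p.2, i] ![j, q.1, q.2] * cup N v q

/-- `a` crossings between the strands 1 and 2, then `a` opposite crossings between 2 and 3 -/
def word (a : ℕ) : List (ℕ × Bool) := List.replicate a (1, false) ++ List.replicate a (0, true)

variable {ι : Type}

/-- regrouping of three strands -/
def e3 : (Fin 3 → ι) ≃ ι × (ι × ι) where
  toFun s := (s 0, (s 1, s 2))
  invFun p := ![p.1, p.2.1, p.2.2]
  left_inv s := by
    funext i
    fin_cases i <;> rfl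
  right_inv p := rfl

variable [Fintype ι] [DecidableEq ι]

lemma gen_zero (A : Matrix (ι × ι) (ι × ι) ℂ) : gen A 3 0 = (on12 A).submatrix e3 e3 := by
  ext s t
  simp only [gen, on12, submatrix_apply, e3, Equiv.coe_fn_mk]
  have h1 : (∀ j : Fin 3, (j : ℕ) ≠ 0 → (j : ℕ) ≠ 0 + 1 → s j = t j) ↔ s 2 = t 2 := by
    constructor
    · intro h
      exact h 2 (by decide) (by decide)
    · intro h j h0 h1
      fin_cases j
      · simp at h0
      · simp at h1
      · exact h
  rw [dif_pos (by norm_num)]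
  simp only [h1]
  rfl

lemma gen_one (A : Matrix (ι × ι) (ι × ι) ℂ) : gen A 3 1 = (on23 A).submatrix e3 e3 := by
  ext s t
  simp only [gen, on23, submatrix_apply, e3, Equiv.coe_fn_mk]
  have h1 : (∀ j : Fin 3, (j : ℕ) ≠ 1 → (j : ℕ) ≠ 1 + 1 → s j = t j) ↔ s 0 = t 0 := by
    constructor
    · intro h
      exact h 0 (by decide) (by decide)
    · intro h j h0 h1
      fin_cases j
      · exact h
      · simp at h0
      · simp at h1
  rw [dif_pos (by norm_num)]
  simp only [h1]
  rfl

lemma submatrix_pow (M : Matrix (ι × (ι × ι)) (ι × (ι × ι)) ℂ) (n : ℕ) :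
    (M.submatrix (e3 (ι := ι)) e3) ^ n = (M ^ n).submatrix e3 e3 := by
  induction n with
  | zero =>
    rw [pow_zero, pow_zero]
    exact (submatrix_one_equiv _).symm
  | succ n ih =>
    rw [pow_succ, pow_succ, ih, submatrix_mul_equiv]

lemma rep_word (P Q : Matrix (ι × ι) (ι × ι) ℂ) (a : ℕ) :
    rep P Q 3 (word a) = ((on23 Q) ^ a * (on12 P) ^ a).submatrix e3 e3 := by
  have h : rep P Q 3 (word a) = (gen Q 3 1) ^ a * (gen P 3 0) ^ a := by
    unfold rep word
    rw [List.map_append, List.prod_append, List.map_replicate, List.map_replicate,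
      List.prod_replicate, List.prod_replicate]
    simp
  rw [h, gen_zero, gen_one, submatrix_pow, submatrix_pow, submatrix_mul_equiv]

lemma tang_word (N a : ℕ) (v : ℂ) (i j : Fin N) : tang N (word a) v i j =
    ∑ p : Fin N × Fin N, ∑ q : Fin N × Fin N,
      cap N v p * ((on23 (crossN N v)) ^ a * (on12 (crossP N v)) ^ a) (p.1, (p.2, i))
        (j, (q.1, q.2)) * cup N v q := by
  unfold tang
  rw [rep_word]
  rfl

end Pool.Agent.W709.RT
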