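import Pool.Agent.W709.RT.Vec
import Pool.Agent.H345J.Tasks

/-! Highest weight vectors of `V_N ⊗ V_N ⊗ V_N`. -/

set_option autoImplicit false
set_option maxHeartbeats 1000000

namespace Pool.Agent.W709.RT

open Finset Matrix Pool.Agent.H550R3.Jones
open scoped Kronecker

variable {N : ℕ}

/-- the action of `E` on three strands -/
noncomputable def E3 (v : ℂ) (N : ℕ) : Matrix (Fin N × (Fin N × Fin N)) (Fin N × (Fin N × Fin N)) ℂ :=
  on12 (W v N).E * on3 ((irr v N).K v 1) + on3 (irr v N).E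

lemma E3_eq {v : ℂ} (hv : v ≠ 0) (N : ℕ) : E3 v N = (irr v N).E ⊗ₖ (W v N).K v 1 +
    (1 : Matrix (Fin N) (Fin N) ℂ) ⊗ₖ (W v N).E := by
  ext p q
  unfold E3
  rw [Matrix.add_apply, on12_mul_on3, Matrix.add_apply, kroneckerMap_apply, kroneckerMap_apply]
  have h1 : ∀ a b c d : Fin N, (W v N).E (a, b) (c, d) =
      (irr v N).E a c * (irr v N).K v 1 b d + (1 : Matrix (Fin N) (Fin N) ℂ) a c * (irr v N).E b d :=
    fun a b c d => rfl
  have h2 : (W v N).K v 1 p.2 q.2 = (irr v N).K v 1 p.2.1 q.2.1 * (irr v N).K v 1 p.2.2 q.2.2 := by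
    unfold WM.K
    by_cases ha : p.2.1 = q.2.1
    · by_cases hb : p.2.2 = q.2.2
      · have hab : p.2 = q.2 := Prod.ext ha hb
        rw [hab, diagonal_apply_eq, diagonal_apply_eq, diagonal_apply_eq]
        have : (W v N).wt q.2 = (irr v N).wt q.2.1 + (irr v N).wt q.2.2 := rfl
        rw [this, mul_add, zpow_add₀ hv]
      · rw [diagonal_apply_ne (h := hb), mul_zero, diagonal_apply_ne (h := fun hc => hb (by rw [hc]))]
    · rw [diagonal_apply_ne (h := ha), zero_mul, diagonal_apply_ne (h := fun hc => ha (by rw [hc]))]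
  have h3 : on3 (irr v N).E p q = (1 : Matrix (Fin N) (Fin N) ℂ) p.1 q.1 *
      ((1 : Matrix (Fin N) (Fin N) ℂ) p.2.1 q.2.1 * (irr v N).E p.2.2 q.2.2) := by
    unfold on3
    simp only [Matrix.one_apply]
    by_cases ha : p.1 = q.1
    · by_cases hb : p.2.1 = q.2.1
      · rw [if_pos ⟨ha, hb⟩, if_pos ha, if_pos hb]; ring
      · rw [if_neg (fun h => hb h.2), if_pos ha, if_neg hb]; ring
    · rw [if_neg (fun h => ha h.1), if_neg ha]; ring
  have h4 : (W v N).E p.2 q.2 = (irr v N).E p.2.1 q.2.1 * (irr v N).K v 1 p.2.2 q.2.2 +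
      (1 : Matrix (Fin N) (Fin N) ℂ) p.2.1 q.2.1 * (irr v N).E p.2.2 q.2.2 := rfl
  rw [h1, h2, h3, h4]
  ring

lemma modW {v : ℂ} (hv : v ≠ 0) (N : ℕ) : IsMod v (W v N) :=
  (Pool.Agent.H345J.taskMod v hv).2 _ _ _ _ ((Pool.Agent.H345J.taskMod v hv).1 N)
    ((Pool.Agent.H345J.taskMod v hv).1 N)

lemma E3_comm12 {v : ℂ} (hv : v ≠ 0) :
    E3 v N * on12 (cas v (W v N)) = on12 (cas v (W v N)) * E3 v N := by
  unfold E3
  rw [Matrix.add_mul, Matrix.mul_add, ← on12_comm_on3 (cas v (W v N)) (irr v N).E,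
    Matrix.mul_assoc, ← on12_comm_on3, ← Matrix.mul_assoc, ← on12_mul, cas_E hv (modW hv N),
    on12_mul, Matrix.mul_assoc]

lemma E3_comm23 {v : ℂ} (hv : v ≠ 0) :
    E3 v N * on23 (cas v (W v N)) = on23 (cas v (W v N)) * E3 v N := by
  rw [E3_eq hv, on23_eq, Matrix.add_mul, Matrix.mul_add, ← mul_kronecker_mul, ← mul_kronecker_mul,
    ← mul_kronecker_mul, ← mul_kronecker_mul, cas_K (modW hv N), cas_E hv (modW hv N)]
  simp only [Matrix.mul_one, Matrix.one_mul]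

lemma E3_apply {v : ℂ} (hv : v ≠ 0) (w : Fin N × (Fin N × Fin N) → ℂ) {p q s : ℕ} (hp : p < N)
    (hq : q < N) (hs : s < N) : x3 (E3 v N *ᵥ w) p q s =
      br v ((N : ℤ) - 1 - p) * v ^ (wtz N q + wtz N s) * x3 w (p + 1) q s +
      br v ((N : ℤ) - 1 - q) * v ^ wtz N s * x3 w p (q + 1) s +
      br v ((N : ℤ) - 1 - s) * x3 w p q (s + 1) := by
  rw [x3_eq _ hp hq hs, E3_eq hv, Matrix.add_mulVec, Pi.add_apply, kron_mulVec, kron_mulVec]
  simp only [sumK, sumOne]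
  rw [sumE]
  have h1 : ∑ l, (W v N).E (⟨q, hq⟩, ⟨s, hs⟩) l * w (⟨p, hp⟩, l) =
      x2 ((W v N).E *ᵥ (fun z => w (⟨p, hp⟩, z))) q s := by
    rw [x2_eq _ hq hs]
    rfl
  rw [h1, WE_apply v _ hq hs]
  have h2 : ∀ a b : ℕ, x2 (fun z => w (⟨p, hp⟩, z)) a b = x3 w p a b := by
    intro a b
    unfold x2 x3
    by_cases h : a < N ∧ b < N
    · rw [dif_pos h, dif_pos ⟨hp, h⟩]
    · rw [dif_neg h, dif_neg (fun hc => h hc.2)]
  rw [h2, h2]
  have h3 : (if h : p + 1 < N then v ^ (1 * (W v N).wt (⟨q, hq⟩, ⟨s, hs⟩)) *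
      w (⟨p + 1, h⟩, ⟨q, hq⟩, ⟨s, hs⟩) else 0) = v ^ (wtz N q + wtz N s) * x3 w (p + 1) q s := by
    by_cases h : p + 1 < N
    · rw [dif_pos h, x3_eq _ h hq hs, one_mul]
      rfl
    · rw [dif_neg h]
      unfold x3
      rw [dif_neg (fun hc => h hc.1), mul_zero]
  rw [h3]
  ring

/-- a highest weight vector is determined by its coefficients at `e_0 ⊗ e_q ⊗ e_s` -/
lemma hw_inj {v : ℂ} (hv : v ≠ 0) (hb : ∀ k : ℕ, 0 < k → k < N → br v k ≠ 0)
    (w : Fin N × (Fin N × Fin N) → ℂ) (hE : E3 v N *ᵥ w = 0)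
    (h0 : ∀ q s : ℕ, x3 w 0 q s = 0) : w = 0 := by
  have key : ∀ p q s : ℕ, x3 w p q s = 0 := by
    intro p
    induction p with
    | zero => exact h0
    | succ p ih =>
      intro q s
      by_cases h : p + 1 < N ∧ q < N ∧ s < N
      · have h1 := E3_apply hv w (by omega : p < N) h.2.1 h.2.2
        rw [hE, ih, ih, mul_zero, mul_zero, add_zero, add_zero] at h1
        have h2 : x3 (0 : Fin N × (Fin N × Fin N) → ℂ) p q s = 0 := by
          unfold x3
          split_ifs <;> rfl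
        rw [h2] at h1
        have h3 : br v ((N : ℤ) - 1 - p) ≠ 0 := by
          have := hb (N - 1 - p) (by omega) (by omega)
          have e : ((N - 1 - p : ℕ) : ℤ) = (N : ℤ) - 1 - p := by omega
          rwa [e] at this
        have h4 : v ^ (wtz N q + wtz N s) ≠ 0 := zpow_ne_zero _ hv
        rcases mul_eq_zero.1 h1.symm with h5 | h5
        · exact absurd h5 (mul_ne_zero h3 h4)
        · exact h5
      · unfold x3
        rw [dif_neg h]
  funext x
  obtain ⟨a, b, c⟩ := x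
  have := key a b c
  rw [x3_eq _ a.isLt b.isLt c.isLt] at this
  exact this

/-- the action of the Casimir operator of the first two strands on a highest weight vector -/
lemma X12_apply {v : ℂ} (hv : v ≠ 0) (w : Fin N × (Fin N × Fin N) → ℂ)
    (hE : E3 v N *ᵥ w = 0) {q s : ℕ} (hq : q < N) (hs : s < N) :
    x3 (on12 (cas v (W v N)) *ᵥ w) 0 q s =
      (v ^ (2 * (N : ℤ) - 1 - 2 * q) + v ^ (-(2 * (N : ℤ) - 1 - 2 * q))) * x3 w 0 q s -
      v ^ (-wtz N 0 - wtz N s) * br v q * br v ((N : ℤ) - 1 - s) * x3 w 0 (q - 1) (s + 1) := by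
  have hN : 0 < N := by omega
  rw [x3_eq _ hN hq hs, on12_mulVec]
  have h1 : (cas v (W v N) *ᵥ fun z => w (z.1, (z.2, ⟨s, hs⟩))) (⟨0, hN⟩, ⟨q, hq⟩) =
      x2 (cas v (W v N) *ᵥ fun z => w (z.1, (z.2, ⟨s, hs⟩))) 0 q := by
    rw [x2_eq _ hN hq]
  rw [h1, cas_apply v _ hN hq]
  have h2 : ∀ a b : ℕ, x2 (fun z => w (z.1, (z.2, ⟨s, hs⟩))) a b = x3 w a b s := by
    intro a b
    unfold x2 x3
    by_cases h : a < N ∧ b < N
    · rw [dif_pos h, dif_pos ⟨h.1, h.2, hs⟩]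
    · rw [dif_neg h, dif_neg (fun hc => h ⟨hc.1, hc.2.1⟩)]
  rw [h2, h2, h2, Nat.cast_zero, br_zero']
  rcases Nat.eq_zero_or_pos q with h0 | h0
  · subst h0
    rw [Nat.cast_zero, br_zero']
    have e1 : v * v ^ (wtz N 0 + wtz N 0) = v ^ (2 * (N : ℤ) - 1 - 2 * 0) := by
      rw [← zpow_one_add₀ hv]
      congr 1
      unfold wtz
      push_cast
      ring
    have e2 : v⁻¹ * v ^ (-(wtz N 0 + wtz N 0)) = v ^ (-(2 * (N : ℤ) - 1 - 2 * 0)) := by
      rw [← _root_.zpow_neg_one, ← zpow_add₀ hv]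
      congr 1
      unfold wtz
      push_cast
      ring
    rw [e1, e2]
    ring
  · have h3 := E3_apply hv w (p := 0) (q := q - 1) (s := s) hN (by omega) hs
    have h4 : x3 (E3 v N *ᵥ w) 0 (q - 1) s = 0 := by
      rw [hE]
      unfold x3
      split_ifs <;> rfl
    rw [h4, show q - 1 + 1 = q by omega, Nat.cast_zero] at h3
    have e0 : (N : ℤ) - 1 - ((q - 1 : ℕ) : ℤ) = (N : ℤ) - q := by omega
    rw [e0] at h3
    have e1 : v * v ^ (wtz N 0 + wtz N q) = v ^ (2 * (N : ℤ) - 1 - 2 * q) := by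
      rw [← zpow_one_add₀ hv]
      congr 1
      unfold wtz
      push_cast
      ring
    have e2 : v⁻¹ * v ^ (-(wtz N 0 + wtz N q)) = v ^ (-(2 * (N : ℤ) - 1 - 2 * q)) := by
      rw [← _root_.zpow_neg_one, ← zpow_add₀ hv]
      congr 1
      unfold wtz
      push_cast
      ring
    rw [e1, e2, zero_add]
    have e3 : v ^ (wtz N (q - 1) + wtz N s) = v ^ (wtz N (q - 1)) * v ^ (wtz N s) := zpow_add₀ hv _ _
    have e4 : v ^ (-wtz N 0 - wtz N s) = v ^ (-wtz N 0) * (v ^ (wtz N s))⁻¹ := by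
      rw [sub_eq_add_neg, zpow_add₀ hv, _root_.zpow_neg v (wtz N s)]
    have h5 : v ^ (wtz N s) ≠ 0 := zpow_ne_zero _ hv
    rw [e3] at h3
    rw [e4]
    have h6 : br v ((N : ℤ) - 1 - 0) * v ^ (wtz N (q - 1)) * x3 w 1 (q - 1) s =
        -(br v ((N : ℤ) - q) * x3 w 0 q s) -
          (v ^ (wtz N s))⁻¹ * (br v ((N : ℤ) - 1 - s) * x3 w 0 (q - 1) (s + 1)) := by
      field_simp
      linear_combination -h3
    linear_combination v ^ (-wtz N 0) * br v q * h6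

end Pool.Agent.W709.RT
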