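import Pool.Agent.W709.RT.Hw

/-! The vectors `f_i = ∏_{j<i} (X_{12} - u_j) f_0` and the orthogonality relations. -/

set_option autoImplicit false
set_option maxHeartbeats 1000000

namespace Pool.Agent.W709.RT

open Finset Matrix Pool.Agent.H550R3.Jones
open scoped Kronecker

variable {N : ℕ}

lemma brf_succ' (v : ℂ) (k : ℕ) : brf v (k + 1) = brf v k * br v ((k : ℤ) + 1) := by
  unfold brf
  rw [Finset.prod_range_succ]

lemma brf_ne' {v : ℂ} {n : ℕ} (hb : ∀ k : ℕ, 0 < k → k < N → br v k ≠ 0) (h : n < N) :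
    brf v n ≠ 0 := by
  unfold brf
  rw [Finset.prod_ne_zero_iff]
  intro j hj
  rw [Finset.mem_range] at hj
  have := hb (j + 1) (by omega) (by omega)
  push_cast at this
  exact this

lemma kap_ne {v : ℂ} (hv : v ≠ 0) (hb : ∀ k : ℕ, 0 < k → k < N → br v k ≠ 0) {k : ℕ}
    (hk : k < N) : kap N v k ≠ 0 := by
  unfold kap
  refine mul_ne_zero (mul_ne_zero (pow_ne_zero _ (by norm_num)) (zpow_ne_zero _ hv))
    (div_ne_zero (mul_ne_zero (brf_ne' hb hk) (brf_ne' hb (by omega))) (brf_ne' hb (by omega)))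

lemma kap_zero {v : ℂ} (hb : ∀ k : ℕ, 0 < k → k < N → br v k ≠ 0) (hN : 0 < N) :
    kap N v 0 = 1 := by
  unfold kap
  have : brf v (N - 1) ≠ 0 := brf_ne' hb (by omega)
  rw [Nat.sub_zero, Nat.cast_zero, zero_mul, zpow_zero, pow_zero]
  have h0 : brf v 0 = 1 := by simp [brf]
  rw [h0]
  field_simp

/-- recursion of the coefficients of the invariant vector -/
lemma kap_succ {v : ℂ} (hv : v ≠ 0) {k : ℕ} (hk : k + 1 < N) :
    kap N v (k + 1) * br v ((N : ℤ) - 1 - k) =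
      -(kap N v k * br v ((k : ℤ) + 1) * v ^ ((N : ℤ) - 3 - 2 * k)) := by
  unfold kap
  have h1 : brf v (N - 1 - k) = brf v (N - 1 - (k + 1)) * br v ((N : ℤ) - 1 - k) := by
    rw [show N - 1 - k = (N - 1 - (k + 1)) + 1 by omega, brf_succ']
    congr 2
    omega
  rw [h1, brf_succ', pow_succ]
  have h2 : v ^ (((k + 1 : ℕ) : ℤ) * ((N : ℤ) - 2 - ((k + 1 : ℕ) : ℤ))) =
      v ^ ((k : ℤ) * ((N : ℤ) - 2 - k)) * v ^ ((N : ℤ) - 3 - 2 * k) := by
    rw [← zpow_add₀ hv]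
    congr 1
    push_cast
    ring
  rw [h2]
  ring

/-- `f_0 = e_0 ⊗ cup` -/
noncomputable def F0 (v : ℂ) (N : ℕ) (x : Fin N × (Fin N × Fin N)) : ℂ :=
  if (x.1 : ℕ) = 0 then cup N v x.2 else 0

/-- `f_{i+1} = (X_{12} - u_i) f_i` -/
noncomputable def FF (v : ℂ) (N : ℕ) : ℕ → Fin N × (Fin N × Fin N) → ℂ
  | 0 => F0 v N
  | i + 1 => on12 (cas v (W v N)) *ᵥ FF v N i -
      (v ^ (2 * (i : ℤ) + 1) + v ^ (-(2 * (i : ℤ) + 1))) • FF v N i

lemma x3_F0 (v : ℂ) {q s : ℕ} (hq : q < N) (hs : s < N) :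
    x3 (F0 v N) 0 q s = if q + s = N - 1 then kap N v q else 0 := by
  rw [x3_eq _ (by omega) hq hs]
  unfold F0 cup
  rw [if_pos rfl]

lemma F0_hw {v : ℂ} (hv : v ≠ 0) : E3 v N *ᵥ F0 v N = 0 := by
  funext x
  obtain ⟨⟨p, hp⟩, ⟨q, hq⟩, ⟨s, hs⟩⟩ := x
  have h1 := E3_apply hv (F0 v N) hp hq hs
  rw [x3_eq _ hp hq hs] at h1
  rw [h1]
  have h2 : x3 (F0 v N) (p + 1) q s = 0 := by
    unfold x3
    by_cases h : p + 1 < N ∧ q < N ∧ s < N
    · rw [dif_pos h]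
      unfold F0
      rw [if_neg (by simp)]
    · rw [dif_neg h]
  rw [h2, mul_zero, zero_add]
  by_cases h0 : p = 0
  · subst h0
    have e1 : ∀ a b : ℕ, x3 (F0 v N) 0 a b = if a < N ∧ b < N ∧ a + b = N - 1 then kap N v a else 0 := by
      intro a b
      by_cases h : a < N ∧ b < N
      · rw [x3_F0 v h.1 h.2]
        by_cases h' : a + b = N - 1
        · rw [if_pos h', if_pos ⟨h.1, h.2, h'⟩]
        · rw [if_neg h', if_neg (fun hc => h' hc.2.2)]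
      · rw [if_neg (fun hc => h ⟨hc.1, hc.2.1⟩)]
        unfold x3
        rw [dif_neg (fun hc => h hc.2)]
    rw [e1, e1]
    by_cases h : q + s + 1 = N - 1
    · rw [if_pos ⟨by omega, by omega, by omega⟩, if_pos ⟨by omega, by omega, by omega⟩]
      have hk := kap_succ hv (N := N) (k := q) (by omega)
      have e2 : (N : ℤ) - 1 - s = (q : ℤ) + 1 := by omega
      have e3 : v ^ wtz N s * v ^ ((N : ℤ) - 3 - 2 * q) = 1 := by
        rw [← zpow_add₀ hv]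
        have : wtz N s + ((N : ℤ) - 3 - 2 * q) = 0 := by unfold wtz; omega
        rw [this, zpow_zero]
      rw [e2]
      simp only [Pi.zero_apply]
      linear_combination v ^ wtz N s * hk - br v ((q : ℤ) + 1) * kap N v q * e3
    · rw [if_neg (by omega), if_neg (by omega)]
      simp
  · have e1 : ∀ a b : ℕ, x3 (F0 v N) p a b = 0 := by
      intro a b
      unfold x3
      by_cases h : p < N ∧ a < N ∧ b < N
      · rw [dif_pos h]
        unfold F0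
        rw [if_neg (by simpa using h0)]
      · rw [dif_neg h]
    rw [e1, e1]
    simp

lemma FF_hw {v : ℂ} (hv : v ≠ 0) (i : ℕ) : E3 v N *ᵥ FF v N i = 0 := by
  induction i with
  | zero => exact F0_hw hv
  | succ i ih =>
    unfold FF
    rw [Matrix.mulVec_sub, Matrix.mulVec_smul, Matrix.mulVec_mulVec, E3_comm12 hv,
      ← Matrix.mulVec_mulVec, ih, Matrix.mulVec_zero, smul_zero, sub_zero]

/-- the products in the coefficients of `f_i` -/
noncomputable def GG (v : ℂ) (m : ℤ) (i : ℕ) : ℂ := ∏ l ∈ range i, br v (m + l)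

lemma GG_succ (v : ℂ) (m : ℤ) (i : ℕ) : GG v m (i + 1) = GG v m i * br v (m + i) := by
  unfold GG
  rw [Finset.prod_range_succ]

lemma GG_succ' (v : ℂ) (m : ℤ) (i : ℕ) : GG v m (i + 1) = br v m * GG v (m + 1) i := by
  unfold GG
  rw [Finset.prod_range_succ', mul_comm]
  congr 1
  · push_cast
    rw [add_zero]
  · apply Finset.prod_congr rfl
    intro l _
    congr 1
    push_cast
    ring

/-- the coefficient of `e_0 ⊗ e_k ⊗ e_{N-1-k}` in `f_i` -/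
noncomputable def ff (v : ℂ) (N i k : ℕ) : ℂ :=
  kap N v k * v ^ (-((i : ℤ) * k)) * GG v ((N : ℤ) - k) i * ∏ l ∈ range i, br v ((N : ℤ) - (l + 1))

lemma step_id {v : ℂ} (hv : v ≠ 0) (n k i : ℤ) :
    (v ^ (2 * n - 1 - 2 * k) + v ^ (-(2 * n - 1 - 2 * k)) - (v ^ (2 * i + 1) + v ^ (-(2 * i + 1)))) +
      v ^ (-n + 2 + i - 1) * br v k * br v (n - k + i) =
    br v (n - k + i) * br v (n - (i + 1)) * v ^ (-k) := by
  unfold br
  have e1 : v ^ (2 * n - 1 - 2 * k) = v ^ n * v ^ n * (v ^ k)⁻¹ * (v ^ k)⁻¹ * v⁻¹ := by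
    rw [← _root_.zpow_neg, ← _root_.zpow_neg_one, ← zpow_add₀ hv, ← zpow_add₀ hv, ← zpow_add₀ hv,
      ← zpow_add₀ hv]
    congr 1; ring
  have e2 : v ^ (-(2 * n - 1 - 2 * k)) = (v ^ n)⁻¹ * (v ^ n)⁻¹ * v ^ k * v ^ k * v := by
    rw [← _root_.zpow_neg, ← zpow_add₀ hv, ← zpow_add₀ hv, ← zpow_add₀ hv, ← zpow_add_one₀ hv]
    congr 1; ring
  have e3 : v ^ (2 * i + 1) = v ^ i * v ^ i * v := by
    rw [← zpow_add₀ hv, ← zpow_add_one₀ hv]
    congr 1; ring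
  have e4 : v ^ (-(2 * i + 1)) = (v ^ i)⁻¹ * (v ^ i)⁻¹ * v⁻¹ := by
    rw [← _root_.zpow_neg, ← _root_.zpow_neg_one, ← zpow_add₀ hv, ← zpow_add₀ hv]
    congr 1; ring
  have e5 : v ^ (-n + 2 + i - 1) = (v ^ n)⁻¹ * v ^ i * v := by
    rw [← _root_.zpow_neg, ← zpow_add₀ hv, ← zpow_add_one₀ hv]
    congr 1; ring
  have e6 : v ^ (n - k + i) = v ^ n * (v ^ k)⁻¹ * v ^ i := by
    rw [← _root_.zpow_neg, ← zpow_add₀ hv, ← zpow_add₀ hv]
    congr 1
  have e7 : v ^ (-(n - k + i)) = (v ^ n)⁻¹ * v ^ k * (v ^ i)⁻¹ := by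
    rw [← _root_.zpow_neg, ← _root_.zpow_neg, ← zpow_add₀ hv, ← zpow_add₀ hv]
    congr 1; ring
  have e8 : v ^ (n - (i + 1)) = v ^ n * (v ^ i)⁻¹ * v⁻¹ := by
    rw [← _root_.zpow_neg, ← _root_.zpow_neg_one, ← zpow_add₀ hv, ← zpow_add₀ hv]
    congr 1; ring
  have e9 : v ^ (-(n - (i + 1))) = (v ^ n)⁻¹ * v ^ i * v := by
    rw [← _root_.zpow_neg, ← zpow_add₀ hv, ← zpow_add_one₀ hv]
    congr 1; ring
  rw [e1, e2, e3, e4, e5, e6, e7, e8, e9, _root_.zpow_neg v k]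
  have h1 : v ^ n ≠ 0 := zpow_ne_zero _ hv
  have h2 : v ^ k ≠ 0 := zpow_ne_zero _ hv
  have h3 : v ^ i ≠ 0 := zpow_ne_zero _ hv
  generalize v ^ n = b at *
  generalize v ^ k = a at *
  generalize v ^ i = c at *
  field_simp
  ring

end Pool.Agent.W709.RT
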