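import Pool.Agent.W709.RT.Orth

/-! The vectors `f_i`: explicit coefficients, the action of `X_{23}`. -/

set_option autoImplicit false
set_option maxHeartbeats 1000000

namespace Pool.Agent.W709.RT

open Finset Matrix Pool.Agent.H550R3.Jones
open scoped Kronecker

variable {N : ℕ}

/-- `κ_{k-1} {k} G(N-k+1, i)` in terms of `κ_k G(N-k,i+1)` -/
lemma kap_pred {v : ℂ} (hv : v ≠ 0) {k : ℕ} (h0 : 0 < k) (hk : k < N) (i : ℕ) :
    kap N v (k - 1) * br v k * GG v ((N : ℤ) - ((k - 1 : ℕ) : ℤ)) i =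
      -(kap N v k * v ^ (2 * (k : ℤ) + 1 - N) * GG v ((N : ℤ) - k) (i + 1)) := by
  have h1 := kap_succ hv (N := N) (k := k - 1) (by omega)
  rw [show k - 1 + 1 = k by omega] at h1
  have e1 : ((k - 1 : ℕ) : ℤ) = (k : ℤ) - 1 := by omega
  rw [e1] at h1 ⊢
  rw [GG_succ']
  have e2 : (N : ℤ) - 1 - ((k : ℤ) - 1) = (N : ℤ) - k := by ring
  have e3 : (k : ℤ) - 1 + 1 = k := by ring
  have e4 : (N : ℤ) - ((k : ℤ) - 1) = (N : ℤ) - k + 1 := by ring
  have e5 : (N : ℤ) - 3 - 2 * ((k : ℤ) - 1) = N - 1 - 2 * k := by ring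
  rw [e2, e3, e5] at h1
  rw [e4]
  have e6 : v ^ (2 * (k : ℤ) + 1 - N) * v ^ ((N : ℤ) - 1 - 2 * k) = 1 := by
    rw [← zpow_add₀ hv]
    have : 2 * (k : ℤ) + 1 - N + ((N : ℤ) - 1 - 2 * k) = 0 := by ring
    rw [this, zpow_zero]
  linear_combination (v ^ (2 * (k : ℤ) + 1 - N) * GG v ((N : ℤ) - k + 1) i) * h1 -
    (kap N v (k - 1) * br v k * GG v ((N : ℤ) - k + 1) i) * e6

lemma x3_FF {v : ℂ} (hv : v ≠ 0) (i : ℕ) : ∀ q s : ℕ, x3 (FF v N i) 0 q s =
    if q < N ∧ s < N ∧ q + s = N - 1 then ff v N i q else 0 := by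
  induction i with
  | zero =>
    intro q s
    by_cases h : q < N ∧ s < N
    · have : x3 (FF v N 0) 0 q s = x3 (F0 v N) 0 q s := rfl
      rw [this, x3_F0 v h.1 h.2]
      have h1 : ff v N 0 q = kap N v q := by
        unfold ff GG
        simp
      by_cases h' : q + s = N - 1
      · rw [if_pos h', if_pos ⟨h.1, h.2, h'⟩, h1]
      · rw [if_neg h', if_neg (fun hc => h' hc.2.2)]
    · rw [if_neg (fun hc => h ⟨hc.1, hc.2.1⟩)]
      unfold x3
      rw [dif_neg (fun hc => h hc.2)]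
  | succ i ih =>
    intro q s
    by_cases h : q < N ∧ s < N
    · have h1 : x3 (FF v N (i + 1)) 0 q s = x3 (on12 (cas v (W v N)) *ᵥ FF v N i) 0 q s -
          (v ^ (2 * (i : ℤ) + 1) + v ^ (-(2 * (i : ℤ) + 1))) * x3 (FF v N i) 0 q s := by
        rw [x3_eq _ (by omega) h.1 h.2, x3_eq _ (by omega) h.1 h.2, x3_eq _ (by omega) h.1 h.2]
        rfl
      rw [h1, X12_apply hv _ (FF_hw hv i) h.1 h.2, ih, ih]
      by_cases h' : q + s = N - 1
      · have hcond : q < N ∧ s < N ∧ q + s = N - 1 := ⟨h.1, h.2, h'⟩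
        rw [if_pos hcond, if_pos hcond]
        have hs : (N : ℤ) - 1 - s = q := by omega
        have hw : -wtz N 0 - wtz N s = -(2 * (q : ℤ)) := by unfold wtz; omega
        rw [hs, hw]
        rcases Nat.eq_zero_or_pos q with h0 | h0
        · subst h0
          rw [Nat.cast_zero, br_zero']
          have h2 := step_id hv (N : ℤ) 0 i
          rw [br_zero'] at h2
          unfold ff
          rw [GG_succ, Finset.prod_range_succ]
          simp only [Nat.cast_zero, mul_zero, zero_mul, add_zero, neg_zero, zpow_zero] at h2 ⊢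
          linear_combination kap N v 0 * GG v ((N : ℤ) - 0) i *
            (∏ l ∈ range i, br v ((N : ℤ) - (l + 1))) * h2
        · have hcond2 : q - 1 < N ∧ s + 1 < N ∧ q - 1 + (s + 1) = N - 1 :=
            ⟨by omega, by omega, by omega⟩
          rw [if_pos hcond2]
          have h2 := step_id hv (N : ℤ) q i
          have h3 := kap_pred hv h0 h.1 i
          unfold ff
          rw [GG_succ, Finset.prod_range_succ]
          rw [GG_succ] at h3
          have e1 : v ^ (-((i : ℤ) * ((q - 1 : ℕ) : ℤ))) = v ^ (-((i : ℤ) * q)) * v ^ (i : ℤ) := by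
            rw [← zpow_add₀ hv]
            congr 1
            have : ((q - 1 : ℕ) : ℤ) = (q : ℤ) - 1 := by omega
            rw [this]
            ring
          have e2 : v ^ (-(((i + 1 : ℕ) : ℤ) * q)) = v ^ (-((i : ℤ) * q)) * v ^ (-(q : ℤ)) := by
            rw [← zpow_add₀ hv]
            congr 1
            push_cast
            ring
          have e3 : v ^ (-(2 * (q : ℤ))) * v ^ (i : ℤ) * v ^ (2 * (q : ℤ) + 1 - N) =
              v ^ (-(N : ℤ) + 2 + i - 1) := by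
            rw [← zpow_add₀ hv, ← zpow_add₀ hv]
            congr 1
            ring
          rw [e1, e2]
          linear_combination kap N v q * v ^ (-((i : ℤ) * q)) * GG v ((N : ℤ) - q) i *
            (∏ l ∈ range i, br v ((N : ℤ) - (l + 1))) * h2 -
            v ^ (-(2 * (q : ℤ))) * br v q * v ^ (-((i : ℤ) * q)) * v ^ (i : ℤ) *
            (∏ l ∈ range i, br v ((N : ℤ) - (l + 1))) * h3 +
            (kap N v q * br v q * v ^ (-((i : ℤ) * q)) * GG v ((N : ℤ) - q) i *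
              br v ((N : ℤ) - q + i) * ∏ l ∈ range i, br v ((N : ℤ) - (l + 1))) * e3
      · have hcn : ¬(q < N ∧ s < N ∧ q + s = N - 1) := fun hc => h' hc.2.2
        rw [if_neg hcn, if_neg hcn]
        rcases Nat.eq_zero_or_pos q with h0 | h0
        · subst h0
          rw [Nat.cast_zero, br_zero']
          ring
        · have hcn2 : ¬(q - 1 < N ∧ s + 1 < N ∧ q - 1 + (s + 1) = N - 1) := by omega
          rw [if_neg hcn2]
          ring
    · rw [if_neg (fun hc => h ⟨hc.1, hc.2.1⟩)]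
      unfold x3
      rw [dif_neg (fun hc => h hc.2)]

lemma step_id2 {v : ℂ} (hv : v ≠ 0) (n k i : ℤ) :
    -(br v k * v ^ (2 * k + 1 - n) * v ^ i * br v (n - k + i - 1) * br v (n - k + i)) +
      (br v k * br v (n - k) * v ^ (2 * k + 1 - n) + v ^ (2 * k + 1 - n) * br v (n - 1 - k) * br v (k + 1) +
        v + v⁻¹ - (v ^ (2 * i + 1) + v ^ (-(2 * i + 1)))) * br v (n - k + i - 1) -
      br v (n - 1 - k) ^ 2 * br v (k + 1) * v ^ (2 * k + 1 - n) * v ^ (-i) =
    -(br v (n + i) * br v i ^ 2 * v ^ k) := by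
  unfold br
  have e0 : v ^ (2 * k + 1 - n) = v ^ k * v ^ k * v * (v ^ n)⁻¹ := by
    rw [← _root_.zpow_neg, ← zpow_add₀ hv, ← zpow_add_one₀ hv, ← zpow_add₀ hv]
    congr 1; ring
  have e1 : v ^ (n - k + i - 1) = v ^ n * (v ^ k)⁻¹ * v ^ i * v⁻¹ := by
    rw [← _root_.zpow_neg, ← _root_.zpow_neg_one, ← zpow_add₀ hv, ← zpow_add₀ hv, ← zpow_add₀ hv]
    congr 1
  have e2 : v ^ (-(n - k + i - 1)) = (v ^ n)⁻¹ * v ^ k * (v ^ i)⁻¹ * v := by
    rw [← _root_.zpow_neg, ← _root_.zpow_neg, ← zpow_add₀ hv, ← zpow_add₀ hv, ← zpow_add_one₀ hv]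
    congr 1; ring
  have e3 : v ^ (n - k + i) = v ^ n * (v ^ k)⁻¹ * v ^ i := by
    rw [← _root_.zpow_neg, ← zpow_add₀ hv, ← zpow_add₀ hv]
    congr 1
  have e4 : v ^ (-(n - k + i)) = (v ^ n)⁻¹ * v ^ k * (v ^ i)⁻¹ := by
    rw [← _root_.zpow_neg, ← _root_.zpow_neg, ← zpow_add₀ hv, ← zpow_add₀ hv]
    congr 1; ring
  have e5 : v ^ (n - k) = v ^ n * (v ^ k)⁻¹ := by
    rw [← _root_.zpow_neg, ← zpow_add₀ hv]
    congr 1
  have e6 : v ^ (-(n - k)) = (v ^ n)⁻¹ * v ^ k := by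
    rw [← _root_.zpow_neg, ← zpow_add₀ hv]
    congr 1; ring
  have e7 : v ^ (n - 1 - k) = v ^ n * (v ^ k)⁻¹ * v⁻¹ := by
    rw [← _root_.zpow_neg, ← _root_.zpow_neg_one, ← zpow_add₀ hv, ← zpow_add₀ hv]
    congr 1; ring
  have e8 : v ^ (-(n - 1 - k)) = (v ^ n)⁻¹ * v ^ k * v := by
    rw [← _root_.zpow_neg, ← zpow_add₀ hv, ← zpow_add_one₀ hv]
    congr 1; ring
  have e9 : v ^ (k + 1) = v ^ k * v := by rw [zpow_add_one₀ hv]
  have e10 : v ^ (-(k + 1)) = (v ^ k)⁻¹ * v⁻¹ := by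
    rw [← _root_.zpow_neg, ← _root_.zpow_neg_one, ← zpow_add₀ hv]
    congr 1; ring
  have e11 : v ^ (2 * i + 1) = v ^ i * v ^ i * v := by
    rw [← zpow_add₀ hv, ← zpow_add_one₀ hv]
    congr 1; ring
  have e12 : v ^ (-(2 * i + 1)) = (v ^ i)⁻¹ * (v ^ i)⁻¹ * v⁻¹ := by
    rw [← _root_.zpow_neg, ← _root_.zpow_neg_one, ← zpow_add₀ hv, ← zpow_add₀ hv]
    congr 1; ring
  have e13 : v ^ (n + i) = v ^ n * v ^ i := zpow_add₀ hv _ _
  have e14 : v ^ (-(n + i)) = (v ^ n)⁻¹ * (v ^ i)⁻¹ := by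
    rw [← _root_.zpow_neg, ← _root_.zpow_neg, ← zpow_add₀ hv]
    congr 1; ring
  rw [e0, e1, e2, e3, e4, e5, e6, e7, e8, e9, e10, e11, e12, e13, e14, _root_.zpow_neg v k,
    _root_.zpow_neg v i]
  have h1 : v ^ n ≠ 0 := zpow_ne_zero _ hv
  have h2 : v ^ k ≠ 0 := zpow_ne_zero _ hv
  have h3 : v ^ i ≠ 0 := zpow_ne_zero _ hv
  generalize v ^ n = b at *
  generalize v ^ k = a at *
  generalize v ^ i = c at *
  field_simp
  ring

end Pool.Agent.W709.RT
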