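import Pool.Agent.W709.RT.Orth2

/-! The action of `X_{23}` on the vectors `f_i`; the pairing with the cap. -/

set_option autoImplicit false
set_option maxHeartbeats 1000000

namespace Pool.Agent.W709.RT

open Finset Matrix Pool.Agent.H550R3.Jones
open scoped Kronecker

variable {N : ℕ}

/-- `u_i = v^(2i+1) + v^(-(2i+1))` -/
noncomputable def ui (v : ℂ) (i : ℕ) : ℂ := v ^ (2 * (i : ℤ) + 1) + v ^ (-(2 * (i : ℤ) + 1))

/-- `c_i = -{N+i} {N-i} {i}^2` -/
noncomputable def ci (v : ℂ) (N i : ℕ) : ℂ := -(br v ((N : ℤ) + i) * br v ((N : ℤ) - i) * br v i ^ 2)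

lemma x3_on23 (v : ℂ) (A : Matrix (Fin N × Fin N) (Fin N × Fin N) ℂ)
    (w : Fin N × (Fin N × Fin N) → ℂ) (hN : 0 < N) {q s : ℕ} (hq : q < N) (hs : s < N) :
    x3 (on23 A *ᵥ w) 0 q s = x2 (A *ᵥ (fun z => w (⟨0, hN⟩, z))) q s := by
  rw [x3_eq _ hN hq hs, on23_mulVec, x2_eq _ hq hs]

lemma x2_slice (w : Fin N × (Fin N × Fin N) → ℂ) (hN : 0 < N) (a b : ℕ) :
    x2 (fun z => w (⟨0, hN⟩, z)) a b = x3 w 0 a b := by
  unfold x2 x3
  by_cases h : a < N ∧ b < N
  · rw [dif_pos h, dif_pos ⟨hN, h⟩]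
  · rw [dif_neg h, dif_neg (fun hc => h hc.2)]

/-- the term coming from `k - 1` -/
lemma term_one {v : ℂ} (hv : v ≠ 0) {k : ℕ} (hk : k < N) (i : ℕ) :
    br v k * br v k * (if k - 1 < N ∧ N - 1 - k + 1 < N ∧ k - 1 + (N - 1 - k + 1) = N - 1 then
      ff v N i (k - 1) else 0) =
    -(br v k * kap N v k * v ^ (2 * (k : ℤ) + 1 - N) * v ^ (-((i : ℤ) * k)) * v ^ (i : ℤ) *
      GG v ((N : ℤ) - k) (i + 1) * ∏ l ∈ range i, br v ((N : ℤ) - (l + 1))) := by
  rcases Nat.eq_zero_or_pos k with h0 | h0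
  · subst h0
    rw [Nat.cast_zero, br_zero']
    ring
  · have hcond : k - 1 < N ∧ N - 1 - k + 1 < N ∧ k - 1 + (N - 1 - k + 1) = N - 1 := by omega
    rw [if_pos hcond]
    have h3 := kap_pred hv h0 hk i
    unfold ff
    have e1 : v ^ (-((i : ℤ) * ((k - 1 : ℕ) : ℤ))) = v ^ (-((i : ℤ) * k)) * v ^ (i : ℤ) := by
      rw [← zpow_add₀ hv]
      congr 1
      have : ((k - 1 : ℕ) : ℤ) = (k : ℤ) - 1 := by omega
      rw [this]
      ring
    rw [e1]
    linear_combination br v k * v ^ (-((i : ℤ) * k)) * v ^ (i : ℤ) *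
      (∏ l ∈ range i, br v ((N : ℤ) - (l + 1))) * h3

/-- the term coming from `k + 1` -/
lemma term_two {v : ℂ} (hv : v ≠ 0) {k : ℕ} (hk : k < N) (i : ℕ) :
    br v ((N : ℤ) - 1 - k) * br v ((N : ℤ) - 1 - k) * v ^ wtz N (N - 1 - k - 1) *
      (if k + 1 < N ∧ N - 1 - k - 1 < N ∧ k + 1 + (N - 1 - k - 1) = N - 1 then
      ff v N i (k + 1) else 0) =
    -(br v ((N : ℤ) - 1 - k) * br v ((k : ℤ) + 1) * kap N v k * v ^ (-((i : ℤ) * k)) *
      v ^ (-(i : ℤ)) * GG v ((N : ℤ) - 1 - k) i * ∏ l ∈ range i, br v ((N : ℤ) - (l + 1))) := by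
  by_cases h0 : k + 1 < N
  · have hcond : k + 1 < N ∧ N - 1 - k - 1 < N ∧ k + 1 + (N - 1 - k - 1) = N - 1 := by omega
    rw [if_pos hcond]
    have h3 := kap_succ hv (N := N) (k := k) h0
    unfold ff
    have e1 : v ^ (-((i : ℤ) * ((k + 1 : ℕ) : ℤ))) = v ^ (-((i : ℤ) * k)) * v ^ (-(i : ℤ)) := by
      rw [← zpow_add₀ hv]
      congr 1
      push_cast
      ring
    have e2 : v ^ ((N : ℤ) - 3 - 2 * k) * v ^ wtz N (N - 1 - k - 1) = 1 := by
      rw [← zpow_add₀ hv]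
      have : (N : ℤ) - 3 - 2 * k + wtz N (N - 1 - k - 1) = 0 := by unfold wtz; omega
      rw [this, zpow_zero]
    have e3 : (N : ℤ) - ((k + 1 : ℕ) : ℤ) = (N : ℤ) - 1 - k := by push_cast; ring
    rw [e1, e3]
    linear_combination br v ((N : ℤ) - 1 - k) * v ^ wtz N (N - 1 - k - 1) * v ^ (-((i : ℤ) * k)) *
      v ^ (-(i : ℤ)) * GG v ((N : ℤ) - 1 - k) i * (∏ l ∈ range i, br v ((N : ℤ) - (l + 1))) * h3 -
      (br v ((N : ℤ) - 1 - k) * br v ((k : ℤ) + 1) * kap N v k * v ^ (-((i : ℤ) * k)) *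
      v ^ (-(i : ℤ)) * GG v ((N : ℤ) - 1 - k) i * ∏ l ∈ range i, br v ((N : ℤ) - (l + 1))) * e2
  · have e : (N : ℤ) - 1 - k = 0 := by omega
    rw [e, br_zero']
    ring

/-- `X_{23}` at the coefficient `(0, k, N-1-k)` -/
lemma X23_FF {v : ℂ} (hv : v ≠ 0) (i : ℕ) {k : ℕ} (hk : k < N) :
    x3 (on23 (cas v (W v N)) *ᵥ FF v N i) 0 k (N - 1 - k) =
      (br v k * br v ((N : ℤ) - k) * v ^ (2 * (k : ℤ) + 1 - N) +
        v ^ (2 * (k : ℤ) + 1 - N) * br v ((N : ℤ) - 1 - k) * br v ((k : ℤ) + 1) + v + v⁻¹) *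
        ff v N i k -
      br v k * kap N v k * v ^ (2 * (k : ℤ) + 1 - N) * v ^ (-((i : ℤ) * k)) * v ^ (i : ℤ) *
        GG v ((N : ℤ) - k) (i + 1) * ∏ l ∈ range i, br v ((N : ℤ) - (l + 1)) -
      v ^ (2 * (k : ℤ) + 1 - N) * (br v ((N : ℤ) - 1 - k) * br v ((k : ℤ) + 1) * kap N v k *
        v ^ (-((i : ℤ) * k)) * v ^ (-(i : ℤ)) * GG v ((N : ℤ) - 1 - k) i *
        ∏ l ∈ range i, br v ((N : ℤ) - (l + 1))) := by
  have hN : 0 < N := by omega
  have hs : N - 1 - k < N := by omega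
  rw [x3_on23 v _ _ hN hk hs, cas_apply v _ hk hs]
  simp only [x2_slice, x3_FF hv]
  have hcond : k < N ∧ N - 1 - k < N ∧ k + (N - 1 - k) = N - 1 := by omega
  rw [if_pos hcond]
  have h1 := term_one hv hk i
  have h2 := term_two hv hk i
  have a1 : ((N - 1 - k : ℕ) : ℤ) = (N : ℤ) - 1 - k := by omega
  have a2 : (N : ℤ) - ((N : ℤ) - 1 - k) = (k : ℤ) + 1 := by ring
  have a3 : (N : ℤ) - 1 - ((N : ℤ) - 1 - k) = k := by ring
  have a4 : wtz N (N - 1 - k) = 2 * (k : ℤ) + 1 - N := by unfold wtz; omega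
  have a5 : -wtz N k = 2 * (k : ℤ) + 1 - N := by unfold wtz; ring
  have a6 : wtz N k + wtz N (N - 1 - k) = 0 := by unfold wtz; omega
  rw [a6, neg_zero, zpow_zero, a1, a2, a3, a4, a5]
  linear_combination h1 + v ^ (2 * (k : ℤ) + 1 - N) * h2

/-- off the support everything vanishes -/
lemma X23_off {v : ℂ} (hv : v ≠ 0) (i : ℕ) {q s : ℕ} (h : ¬(q < N ∧ s < N ∧ q + s = N - 1)) :
    x3 (on23 (cas v (W v N)) *ᵥ FF v N i) 0 q s = 0 := by
  by_cases hqs : q < N ∧ s < N
  · have hN : 0 < N := by omega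
    rw [x3_on23 v _ _ hN hqs.1 hqs.2, cas_apply v _ hqs.1 hqs.2]
    simp only [x2_slice, x3_FF hv]
    rw [if_neg h]
    have h1 : br v q * br v ((N : ℤ) - 1 - s) *
        (if q - 1 < N ∧ s + 1 < N ∧ q - 1 + (s + 1) = N - 1 then ff v N i (q - 1) else 0) = 0 := by
      rcases Nat.eq_zero_or_pos q with h0 | h0
      · subst h0
        rw [Nat.cast_zero, br_zero']
        ring
      · rw [if_neg (by omega)]
        ring
    have h2 : v ^ (-wtz N q) * br v s * br v ((N : ℤ) - 1 - q) * v ^ wtz N (s - 1) *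
        (if q + 1 < N ∧ s - 1 < N ∧ q + 1 + (s - 1) = N - 1 then ff v N i (q + 1) else 0) = 0 := by
      rcases Nat.eq_zero_or_pos s with h0 | h0
      · subst h0
        rw [Nat.cast_zero, br_zero']
        ring
      · rw [if_neg (by omega)]
        ring
    rw [h1, h2]
    ring
  · unfold x3
    rw [dif_neg (fun hc => hqs hc.2)]

lemma x3_lin (a b : ℂ) (w₁ w₂ w₃ : Fin N × (Fin N × Fin N) → ℂ) (p q s : ℕ) :
    x3 (w₁ - a • w₂ - b • w₃) p q s = x3 w₁ p q s - a * x3 w₂ p q s - b * x3 w₃ p q s := by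
  unfold x3
  by_cases h : p < N ∧ q < N ∧ s < N
  · rw [dif_pos h, dif_pos h, dif_pos h, dif_pos h]
    rfl
  · rw [dif_neg h, dif_neg h, dif_neg h, dif_neg h]
    ring

theorem D_zero {v : ℂ} (hv : v ≠ 0) (hb : ∀ k : ℕ, 0 < k → k < N → br v k ≠ 0) :
    on23 (cas v (W v N)) *ᵥ FF v N 0 = ui v 0 • FF v N 0 := by
  have h : on23 (cas v (W v N)) *ᵥ FF v N 0 - ui v 0 • FF v N 0 - (0 : ℂ) • FF v N 0 = 0 := by
    apply hw_inj hv hb
    · rw [Matrix.mulVec_sub, Matrix.mulVec_sub, Matrix.mulVec_smul, Matrix.mulVec_smul,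
        Matrix.mulVec_mulVec, E3_comm23 hv, ← Matrix.mulVec_mulVec, FF_hw hv]
      simp
    · intro q s
      rw [x3_lin, x3_FF hv]
      by_cases hc : q < N ∧ s < N ∧ q + s = N - 1
      · rw [if_pos hc]
        obtain ⟨hq, hs, hqs⟩ := hc
        obtain rfl : s = N - 1 - q := by omega
        rw [X23_FF hv 0 hq]
        unfold ff ui
        have e1 : GG v ((N : ℤ) - q) (0 + 1) = br v ((N : ℤ) - q) := by simp [GG]
        have e2 : ∀ m : ℤ, GG v m 0 = 1 := by intro m; simp [GG]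
        rw [e1, e2, e2]
        simp only [Nat.cast_zero, zero_mul, mul_zero, neg_zero, zpow_zero, Finset.range_zero,
          Finset.prod_empty, zero_add, zpow_one, _root_.zpow_neg_one]
        ring
      · rw [if_neg hc, X23_off hv 0 hc]
        ring
  rw [zero_smul, sub_zero, sub_eq_zero] at h
  exact h

theorem D_succ {v : ℂ} (hv : v ≠ 0) (hb : ∀ k : ℕ, 0 < k → k < N → br v k ≠ 0) (i : ℕ) :
    on23 (cas v (W v N)) *ᵥ FF v N (i + 1) =
      ui v (i + 1) • FF v N (i + 1) + ci v N (i + 1) • FF v N i := by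
  have h : on23 (cas v (W v N)) *ᵥ FF v N (i + 1) - ui v (i + 1) • FF v N (i + 1) -
      ci v N (i + 1) • FF v N i = 0 := by
    apply hw_inj hv hb
    · rw [Matrix.mulVec_sub, Matrix.mulVec_sub, Matrix.mulVec_smul, Matrix.mulVec_smul,
        Matrix.mulVec_mulVec, E3_comm23 hv, ← Matrix.mulVec_mulVec, FF_hw hv, FF_hw hv]
      simp
    · intro q s
      rw [x3_lin, x3_FF hv, x3_FF hv]
      by_cases hc : q < N ∧ s < N ∧ q + s = N - 1
      · rw [if_pos hc, if_pos hc]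
        obtain ⟨hq, hs, hqs⟩ := hc
        obtain rfl : s = N - 1 - q := by omega
        rw [X23_FF hv (i + 1) hq]
        have h2 := step_id2 hv (N : ℤ) q ((i + 1 : ℕ) : ℤ)
        unfold ff ui ci
        have e0 : GG v ((N : ℤ) - 1 - q) (i + 1) = br v ((N : ℤ) - 1 - q) * GG v ((N : ℤ) - q) i := by
          rw [GG_succ']
          congr 2
          ring
        rw [e0, GG_succ v _ (i + 1), GG_succ v _ i, Finset.prod_range_succ]
        have e1 : v ^ (-((i : ℤ) * q)) = v ^ (-(((i + 1 : ℕ) : ℤ) * q)) * v ^ (q : ℤ) := by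
          rw [← zpow_add₀ hv]
          congr 1
          push_cast
          ring
        rw [e1]
        have e2 : (N : ℤ) - q + ((i + 1 : ℕ) : ℤ) - 1 = (N : ℤ) - q + i := by push_cast; ring
        rw [e2] at h2
        have e3 : br v ((N : ℤ) - ((i : ℤ) + 1)) = br v ((N : ℤ) - ((i + 1 : ℕ) : ℤ)) := by
          push_cast; rfl
        rw [e3]
        linear_combination kap N v q * v ^ (-(((i + 1 : ℕ) : ℤ) * q)) * GG v ((N : ℤ) - q) i *
          (∏ l ∈ range i, br v ((N : ℤ) - (l + 1))) * br v ((N : ℤ) - ((i + 1 : ℕ) : ℤ)) * h2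
      · rw [if_neg hc, if_neg hc, X23_off hv (i + 1) hc]
        ring
  rw [sub_sub, sub_eq_zero] at h
  exact h

/-! ### the pairing with the cap -/

/-- pairing with `cap ⊗ e_0^*` -/
noncomputable def pr (v : ℂ) (hN : 0 < N) (w : Fin N × (Fin N × Fin N) → ℂ) : ℂ :=
  ∑ p : Fin N × Fin N, cap N v p * w (p.1, (p.2, ⟨0, hN⟩))

lemma cap_F {v : ℂ} (hv : v ≠ 0) (hb : ∀ k : ℕ, 0 < k → k < N → br v k ≠ 0) :
    cap N v ᵥ* (W v N).F = 0 := by
  funext x
  obtain ⟨a, b⟩ := x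
  have h : (cap N v ᵥ* (W v N).F) (a, b) =
      (∑ i, cap N v (i, b) * (irr v N).F i a) +
        v ^ (-(irr v N).wt a) * ∑ j, cap N v (a, j) * (irr v N).F j b := by
    have hF : ∀ i j, (W v N).F (i, j) (a, b) = (irr v N).F i a * (1 : Matrix (Fin N) (Fin N) ℂ) j b +
        (irr v N).K v (-1) i a * (irr v N).F j b := fun i j => rfl
    unfold Matrix.vecMul dotProduct
    rw [Fintype.sum_prod_type]
    simp only [hF, mul_add, Finset.sum_add_distrib]
    congr 1
    · apply Finset.sum_congr rfl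
      intro i _
      rw [Finset.sum_eq_single b]
      · rw [Matrix.one_apply_eq]; ring
      · intro j _ hj
        rw [Matrix.one_apply_ne hj]; ring
      · intro h
        exact absurd (Finset.mem_univ _) h
    · rw [Finset.sum_eq_single a]
      · unfold WM.K
        rw [diagonal_apply_eq, Finset.mul_sum, neg_one_mul]
        apply Finset.sum_congr rfl
        intro j _
        ring
      · intro i _ hi
        unfold WM.K
        rw [diagonal_apply_ne _ hi]
        simp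
      · intro h
        exact absurd (Finset.mem_univ _) h
  rw [h, sumF' v (fun i => cap N v (i, b)) a, sumF' v (fun j => cap N v (a, j)) b]
  by_cases hab : (a : ℕ) + b + 1 = N - 1
  · rw [dif_pos (by omega), dif_pos (by omega)]
    unfold cap
    rw [if_pos (by simp only; omega), if_pos (by simp only; omega)]
    have h1 := kap_succ hv (N := N) (k := b) (by omega)
    have h2 := kap_ne hv hb b.isLt
    have h3 : kap N v ((b : ℕ) + 1) ≠ 0 := kap_ne hv hb (by omega)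
    have e1 : ((a : ℕ) : ℤ) + 1 = (N : ℤ) - 1 - (b : ℕ) := by omega
    have e2 : -(irr v N).wt a = (N : ℤ) - 3 - 2 * (b : ℕ) := by
      simp only [irr]
      omega
    rw [e1, e2]
    simp only [Pi.zero_apply]
    field_simp
    linear_combination h1
  · have e1 : (if h : (a : ℕ) + 1 < N then cap N v (⟨(a : ℕ) + 1, h⟩, b) else 0) = 0 := by
      by_cases h : (a : ℕ) + 1 < N
      · rw [dif_pos h]
        unfold cap
        rw [if_neg (by simp only; omega)]
      · rw [dif_neg h]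
    have e2 : (if h : (b : ℕ) + 1 < N then cap N v (a, ⟨(b : ℕ) + 1, h⟩) else 0) = 0 := by
      by_cases h : (b : ℕ) + 1 < N
      · rw [dif_pos h]
        unfold cap
        rw [if_neg (by simp only; omega)]
      · rw [dif_neg h]
    rw [e1, e2]
    simp

lemma cap_K {v : ℂ} (e : ℤ) : cap N v ᵥ* (W v N).K v e = cap N v := by
  funext x
  unfold Matrix.vecMul dotProduct WM.K
  rw [Finset.sum_eq_single x]
  · beta_reduce
    rw [diagonal_apply_eq]
    by_cases h : (x.1 : ℕ) + x.2 = N - 1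
    · have h1 : (W v N).wt x = 0 := by
        have : (W v N).wt x = ((N : ℤ) - 1 - 2 * (x.1 : ℕ)) + ((N : ℤ) - 1 - 2 * (x.2 : ℕ)) := rfl
        rw [this]
        have := x.1.isLt
        omega
      rw [h1, mul_zero, zpow_zero, mul_one]
    · unfold cap
      rw [if_neg h, zero_mul]
  · intro y _ hy
    beta_reduce
    rw [diagonal_apply_ne _ hy, mul_zero]
  · intro h
    exact absurd (Finset.mem_univ _) h

lemma cap_cas {v : ℂ} (hv : v ≠ 0) (hb : ∀ k : ℕ, 0 < k → k < N → br v k ≠ 0) :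
    cap N v ᵥ* cas v (W v N) = ui v 0 • cap N v := by
  unfold cas ui
  rw [Matrix.vecMul_add, Matrix.vecMul_add, ← Matrix.vecMul_vecMul, cap_F hv hb,
    Matrix.vecMul_smul, Matrix.vecMul_smul, cap_K, cap_K, Matrix.zero_vecMul, zero_add]
  simp only [Nat.cast_zero, mul_zero, zero_add, zpow_one, _root_.zpow_neg_one]
  rw [add_smul]

lemma pr_12 {v : ℂ} (hv : v ≠ 0) (hb : ∀ k : ℕ, 0 < k → k < N → br v k ≠ 0) (hN : 0 < N)
    (w : Fin N × (Fin N × Fin N) → ℂ) :
    pr v hN (on12 (cas v (W v N)) *ᵥ w) = ui v 0 * pr v hN w := by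
  unfold pr
  have h1 : ∑ p : Fin N × Fin N, cap N v p * (on12 (cas v (W v N)) *ᵥ w) (p.1, (p.2, ⟨0, hN⟩)) =
      cap N v ⬝ᵥ (cas v (W v N) *ᵥ (fun z => w (z.1, (z.2, ⟨0, hN⟩)))) := by
    unfold dotProduct
    apply Finset.sum_congr rfl
    intro p _
    rw [on12_mulVec]
  rw [h1, Matrix.dotProduct_mulVec, cap_cas hv hb, smul_dotProduct]
  rfl

lemma pr_sub {v : ℂ} (hN : 0 < N) (w₁ w₂ : Fin N × (Fin N × Fin N) → ℂ) :
    pr v hN (w₁ - w₂) = pr v hN w₁ - pr v hN w₂ := by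
  unfold pr
  rw [← Finset.sum_sub_distrib]
  apply Finset.sum_congr rfl
  intro p _
  rw [Pi.sub_apply]
  ring

lemma pr_add {v : ℂ} (hN : 0 < N) (w₁ w₂ : Fin N × (Fin N × Fin N) → ℂ) :
    pr v hN (w₁ + w₂) = pr v hN w₁ + pr v hN w₂ := by
  unfold pr
  rw [← Finset.sum_add_distrib]
  apply Finset.sum_congr rfl
  intro p _
  rw [Pi.add_apply]
  ring

lemma pr_smul {v : ℂ} (hN : 0 < N) (a : ℂ) (w : Fin N × (Fin N × Fin N) → ℂ) :
    pr v hN (a • w) = a * pr v hN w := by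
  unfold pr
  rw [Finset.mul_sum]
  apply Finset.sum_congr rfl
  intro p _
  rw [Pi.smul_apply, smul_eq_mul]
  ring

lemma pr_F0 {v : ℂ} (hv : v ≠ 0) (hb : ∀ k : ℕ, 0 < k → k < N → br v k ≠ 0) (hN : 0 < N) :
    pr v hN (FF v N 0) = 1 := by
  have hN1 : N - 1 < N := by omega
  unfold pr
  rw [Finset.sum_eq_single ((⟨0, hN⟩, ⟨N - 1, hN1⟩) : Fin N × Fin N)]
  · have h1 : FF v N 0 (⟨0, hN⟩, (⟨N - 1, hN1⟩, ⟨0, hN⟩)) = kap N v (N - 1) := by
      have : FF v N 0 = F0 v N := rfl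
      rw [this]
      unfold F0 cup
      rw [if_pos rfl, if_pos (by simp)]
    rw [h1]
    unfold cap
    rw [if_pos (by simp)]
    exact inv_mul_cancel₀ (kap_ne hv hb hN1)
  · intro p _ hp
    have h1 : FF v N 0 = F0 v N := rfl
    rw [h1]
    unfold F0 cup
    by_cases h2 : (p.1 : ℕ) = 0
    · by_cases h3 : (p.2 : ℕ) = N - 1
      · exfalso
        apply hp
        apply Prod.ext
        · exact Fin.ext h2
        · exact Fin.ext h3
      · rw [if_pos h2, if_neg (by simpa using h3), mul_zero]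
    · rw [if_neg h2, mul_zero]
  · intro h
    exact absurd (Finset.mem_univ _) h

lemma pr_FF {v : ℂ} (hv : v ≠ 0) (hb : ∀ k : ℕ, 0 < k → k < N → br v k ≠ 0) (hN : 0 < N) (i : ℕ) :
    pr v hN (FF v N i) = if i = 0 then 1 else 0 := by
  induction i with
  | zero => rw [if_pos rfl]; exact pr_F0 hv hb hN
  | succ i ih =>
    have h1 : FF v N (i + 1) = on12 (cas v (W v N)) *ᵥ FF v N i - ui v i • FF v N i := rfl
    rw [h1, pr_sub, pr_smul, pr_12 hv hb, ih, if_neg (Nat.succ_ne_zero i)]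
    by_cases h0 : i = 0
    · subst h0
      ring
    · rw [if_neg h0]
      ring

/-- `∏_{l<j} (X_{23} - u_l)` -/
noncomputable def MM (v : ℂ) (N : ℕ) : ℕ → Matrix (Fin N × (Fin N × Fin N)) (Fin N × (Fin N × Fin N)) ℂ
  | 0 => 1
  | j + 1 => MM v N j * (on23 (cas v (W v N)) - ui v j • 1)

/-- orthogonality -/
theorem orth {v : ℂ} (hv : v ≠ 0) (hb : ∀ k : ℕ, 0 < k → k < N → br v k ≠ 0) (hN : 0 < N) (j : ℕ) :
    ∀ i : ℕ, pr v hN (MM v N j *ᵥ FF v N i) =
      if i = j then ∏ l ∈ range i, ci v N (l + 1) else 0 := by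
  induction j with
  | zero =>
    intro i
    unfold MM
    rw [Matrix.one_mulVec, pr_FF hv hb hN]
    by_cases h : i = 0
    · subst h
      simp
    · rw [if_neg h, if_neg h]
  | succ j ih =>
    intro i
    unfold MM
    rw [← Matrix.mulVec_mulVec, Matrix.sub_mulVec, Matrix.smul_mulVec, Matrix.one_mulVec]
    cases i with
    | zero =>
      rw [D_zero hv hb, ← sub_smul, Matrix.mulVec_smul, pr_smul, ih 0]
      by_cases h : 0 = j
      · subst h
        simp
      · rw [if_neg h, mul_zero, if_neg (by omega)]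
    | succ i =>
      have h1 : on23 (cas v (W v N)) *ᵥ FF v N (i + 1) - ui v j • FF v N (i + 1) =
          (ui v (i + 1) - ui v j) • FF v N (i + 1) + ci v N (i + 1) • FF v N i := by
        rw [D_succ hv hb, sub_smul]
        abel
      rw [h1, Matrix.mulVec_add, pr_add, Matrix.mulVec_smul, Matrix.mulVec_smul, pr_smul, pr_smul,
        ih, ih]
      by_cases h2 : i = j
      · subst h2
        rw [if_pos rfl, if_pos rfl, if_neg (by omega), Finset.prod_range_succ]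
        ring
      · rw [if_neg h2, if_neg (by omega : ¬(i + 1 = j + 1))]
        by_cases h3 : i + 1 = j
        · subst h3
          ring
        · rw [if_neg h3]
          ring

end Pool.Agent.W709.RT
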