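import Pool.Agent.W709.RT.Alg

/-! Explicit action of the Casimir operators on highest weight vectors of `V_N ⊗ V_N ⊗ V_N`. -/

set_option autoImplicit false
set_option maxHeartbeats 1000000

namespace Pool.Agent.W709.RT

open Finset Matrix Pool.Agent.H550R3.Jones
open scoped Kronecker

variable {N : ℕ}

/-- extension of a vector by zero -/
noncomputable def x2 (x : Fin N × Fin N → ℂ) (i j : ℕ) : ℂ :=
  if h : i < N ∧ j < N then x (⟨i, h.1⟩, ⟨j, h.2⟩) else 0

/-- extension of a vector by zero -/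
noncomputable def x3 (w : Fin N × (Fin N × Fin N) → ℂ) (p q s : ℕ) : ℂ :=
  if h : p < N ∧ q < N ∧ s < N then w (⟨p, h.1⟩, (⟨q, h.2.1⟩, ⟨s, h.2.2⟩)) else 0

lemma x2_eq (x : Fin N × Fin N → ℂ) {i j : ℕ} (hi : i < N) (hj : j < N) :
    x2 x i j = x (⟨i, hi⟩, ⟨j, hj⟩) := by
  unfold x2
  rw [dif_pos ⟨hi, hj⟩]

lemma x3_eq (w : Fin N × (Fin N × Fin N) → ℂ) {p q s : ℕ} (hp : p < N) (hq : q < N) (hs : s < N) :
    x3 w p q s = w (⟨p, hp⟩, (⟨q, hq⟩, ⟨s, hs⟩)) := by
  unfold x3
  rw [dif_pos ⟨hp, hq, hs⟩]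

lemma br_zero' (v : ℂ) : br v 0 = 0 := by simp [br]

lemma sumE (v : ℂ) (f : Fin N → ℂ) (i : Fin N) : ∑ k, (irr v N).E i k * f k =
    br v ((N : ℤ) - 1 - (i : ℕ)) * (if h : (i : ℕ) + 1 < N then f ⟨i + 1, h⟩ else 0) := by
  by_cases h : (i : ℕ) + 1 < N
  · rw [dif_pos h, Finset.sum_eq_single (⟨(i : ℕ) + 1, h⟩ : Fin N)]
    · simp only [irr]
      rw [if_pos trivial]
      congr 2
      push_cast
      ring
    · intro k _ hne
      have : (irr v N).E i k = 0 := by
        simp only [irr]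
        rw [if_neg]
        intro hc
        exact hne (Fin.ext hc)
      rw [this, zero_mul]
    · intro h
      exact absurd (Finset.mem_univ _) h
  · rw [dif_neg h, mul_zero]
    apply Finset.sum_eq_zero
    intro k _
    have : (irr v N).E i k = 0 := by
      simp only [irr]
      rw [if_neg]
      intro hc
      have := k.isLt
      omega
    rw [this, zero_mul]

lemma sumF (v : ℂ) (f : Fin N → ℂ) (i : Fin N) : ∑ k, (irr v N).F i k * f k =
    br v ((i : ℕ) : ℤ) * f ⟨(i : ℕ) - 1, by omega⟩ := by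
  by_cases hi : (i : ℕ) = 0
  · have e0 : br v ((i : ℕ) : ℤ) = 0 := by rw [hi]; simp [br]
    rw [e0, zero_mul]
    apply Finset.sum_eq_zero
    intro k _
    have : (irr v N).F i k = 0 := by
      simp only [irr]
      rw [if_neg (by omega)]
    rw [this, zero_mul]
  · rw [Finset.sum_eq_single (⟨(i : ℕ) - 1, by omega⟩ : Fin N)]
    · simp only [irr]
      rw [if_pos (by omega : (i : ℕ) = (i : ℕ) - 1 + 1)]
    · intro k _ hne
      have : (irr v N).F i k = 0 := by
        simp only [irr]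
        rw [if_neg]
        intro hc
        apply hne
        apply Fin.ext
        simp only
        omega
      rw [this, zero_mul]
    · intro h
      exact absurd (Finset.mem_univ _) h

lemma sumF' (v : ℂ) (f : Fin N → ℂ) (a : Fin N) : ∑ i, f i * (irr v N).F i a =
    (if h : (a : ℕ) + 1 < N then f ⟨a + 1, h⟩ else 0) * br v (((a : ℕ) : ℤ) + 1) := by
  by_cases h : (a : ℕ) + 1 < N
  · rw [dif_pos h, Finset.sum_eq_single (⟨(a : ℕ) + 1, h⟩ : Fin N)]
    · simp only [irr]
      rw [if_pos trivial]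
      push_cast
      rfl
    · intro k _ hne
      have : (irr v N).F k a = 0 := by
        simp only [irr]
        rw [if_neg]
        intro hc
        exact hne (Fin.ext hc)
      rw [this, mul_zero]
    · intro h
      exact absurd (Finset.mem_univ _) h
  · rw [dif_neg h, zero_mul]
    apply Finset.sum_eq_zero
    intro k _
    have : (irr v N).F k a = 0 := by
      simp only [irr]
      rw [if_neg]
      intro hc
      have := k.isLt
      omega
    rw [this, mul_zero]

lemma kron_mulVec {ι κ : Type} [Fintype ι] [Fintype κ] (A : Matrix ι ι ℂ) (B : Matrix κ κ ℂ)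
    (x : ι × κ → ℂ) (i : ι) (j : κ) :
    ((A ⊗ₖ B) *ᵥ x) (i, j) = ∑ k, A i k * ∑ l, B j l * x (k, l) := by
  simp only [Matrix.mulVec, dotProduct, Fintype.sum_prod_type, kroneckerMap_apply, Finset.mul_sum]
  apply Finset.sum_congr rfl
  intro k _
  apply Finset.sum_congr rfl
  intro l _
  ring

lemma sumK {ι : Type} [Fintype ι] [DecidableEq ι] (v : ℂ) (M : WM ι) (e : ℤ) (f : ι → ℂ) (i : ι) :
    ∑ k, M.K v e i k * f k = v ^ (e * M.wt i) * f i := by
  unfold WM.K
  rw [Finset.sum_eq_single i]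
  · rw [diagonal_apply_eq]
  · intro k _ hne
    rw [diagonal_apply_ne _ (Ne.symm hne), zero_mul]
  · intro h
    exact absurd (Finset.mem_univ _) h

lemma sumOne {ι : Type} [Fintype ι] [DecidableEq ι] (f : ι → ℂ) (i : ι) :
    ∑ k, (1 : Matrix ι ι ℂ) i k * f k = f i := by
  rw [Finset.sum_eq_single i]
  · rw [Matrix.one_apply_eq, one_mul]
  · intro k _ hne
    rw [Matrix.one_apply_ne (Ne.symm hne), zero_mul]
  · intro h
    exact absurd (Finset.mem_univ _) h

/-- the weight of `e_i` -/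
def wtz (N i : ℕ) : ℤ := (N : ℤ) - 1 - 2 * (i : ℕ)

lemma WE_apply (v : ℂ) (x : Fin N × Fin N → ℂ) {i j : ℕ} (hi : i < N) (hj : j < N) :
    x2 ((W v N).E *ᵥ x) i j =
      br v ((N : ℤ) - 1 - i) * v ^ wtz N j * x2 x (i + 1) j +
      br v ((N : ℤ) - 1 - j) * x2 x i (j + 1) := by
  rw [x2_eq _ hi hj]
  have h : (W v N).E = (irr v N).E ⊗ₖ (irr v N).K v 1 + (1 : Matrix (Fin N) (Fin N) ℂ) ⊗ₖ (irr v N).E :=
    rfl
  rw [h, Matrix.add_mulVec, Pi.add_apply, kron_mulVec, kron_mulVec]
  simp only [sumK, sumOne]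
  rw [sumE, sumE]
  simp only [one_mul]
  congr 1
  · by_cases h : i + 1 < N
    · rw [dif_pos h, x2_eq _ h hj]
      unfold wtz
      simp only [irr]
      ring
    · rw [dif_neg h]
      unfold x2
      rw [dif_neg (by omega)]
      ring
  · by_cases h : j + 1 < N
    · rw [dif_pos h, x2_eq _ hi h]
    · rw [dif_neg h]
      unfold x2
      rw [dif_neg (by omega)]

lemma WF_apply (v : ℂ) (x : Fin N × Fin N → ℂ) {i j : ℕ} (hi : i < N) (hj : j < N) :
    x2 ((W v N).F *ᵥ x) i j = br v i * x2 x (i - 1) j + v ^ (-wtz N i) * br v j * x2 x i (j - 1) := by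
  rw [x2_eq _ hi hj]
  have h : (W v N).F = (irr v N).F ⊗ₖ (1 : Matrix (Fin N) (Fin N) ℂ) + (irr v N).K v (-1) ⊗ₖ (irr v N).F :=
    rfl
  rw [h, Matrix.add_mulVec, Pi.add_apply, kron_mulVec, kron_mulVec]
  simp only [sumK, sumOne]
  rw [sumF, sumF, x2_eq _ (by omega : i - 1 < N) hj, x2_eq _ hi (by omega : j - 1 < N)]
  simp only [neg_one_mul]
  unfold wtz
  simp only [irr]
  ring

lemma WK_apply (v : ℂ) (e : ℤ) (x : Fin N × Fin N → ℂ) {i j : ℕ} (hi : i < N) (hj : j < N) :
    x2 ((W v N).K v e *ᵥ x) i j = v ^ (e * (wtz N i + wtz N j)) * x2 x i j := by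
  rw [x2_eq _ hi hj, x2_eq _ hi hj]
  have := sumK v (W v N) e x (⟨i, hi⟩, ⟨j, hj⟩)
  unfold Matrix.mulVec dotProduct
  rw [this]
  rfl

/-- the explicit action of the Casimir operator -/
lemma cas_apply (v : ℂ) (x : Fin N × Fin N → ℂ) {i j : ℕ} (hi : i < N) (hj : j < N) :
    x2 (cas v (W v N) *ᵥ x) i j =
      (br v i * br v ((N : ℤ) - i) * v ^ wtz N j + v ^ (-wtz N i) * br v j * br v ((N : ℤ) - j) +
        v * v ^ (wtz N i + wtz N j) + v⁻¹ * v ^ (-(wtz N i + wtz N j))) * x2 x i j +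
      br v i * br v ((N : ℤ) - 1 - j) * x2 x (i - 1) (j + 1) +
      v ^ (-wtz N i) * br v j * br v ((N : ℤ) - 1 - i) * v ^ (wtz N (j - 1)) * x2 x (i + 1) (j - 1) := by
  have hsplit : x2 (cas v (W v N) *ᵥ x) i j = x2 ((W v N).F *ᵥ ((W v N).E *ᵥ x)) i j +
      v * x2 ((W v N).K v 1 *ᵥ x) i j + v⁻¹ * x2 ((W v N).K v (-1) *ᵥ x) i j := by
    rw [x2_eq _ hi hj, x2_eq _ hi hj, x2_eq _ hi hj, x2_eq _ hi hj]
    unfold cas
    rw [Matrix.add_mulVec, Matrix.add_mulVec, Matrix.smul_mulVec, Matrix.smul_mulVec,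
      ← Matrix.mulVec_mulVec]
    rfl
  rw [hsplit, WF_apply v _ hi hj, WK_apply v _ _ hi hj, WK_apply v _ _ hi hj,
    WE_apply v x (by omega : i - 1 < N) hj, WE_apply v x hi (by omega : j - 1 < N)]
  have h1 : br v i * (br v ((N : ℤ) - 1 - ((i - 1 : ℕ) : ℤ)) * v ^ wtz N j * x2 x (i - 1 + 1) j) =
      br v i * (br v ((N : ℤ) - i) * v ^ wtz N j * x2 x i j) := by
    rcases Nat.eq_zero_or_pos i with h0 | h0
    · subst h0
      rw [Nat.cast_zero, br_zero']
      ring
    · rw [show i - 1 + 1 = i by omega]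
      congr 4
      omega
  have h2 : br v j * (br v ((N : ℤ) - 1 - ((j - 1 : ℕ) : ℤ)) * x2 x i (j - 1 + 1)) =
      br v j * (br v ((N : ℤ) - j) * x2 x i j) := by
    rcases Nat.eq_zero_or_pos j with h0 | h0
    · subst h0
      rw [Nat.cast_zero, br_zero']
      ring
    · rw [show j - 1 + 1 = j by omega]
      congr 3
      omega
  rw [one_mul, neg_one_mul]
  linear_combination h1 + v ^ (-wtz N i) * h2

/-! ### three strands -/

section three

variable {ι : Type} [Fintype ι] [DecidableEq ι]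

lemma on12_mulVec (A : Matrix (ι × ι) (ι × ι) ℂ) (w : ι × (ι × ι) → ℂ) (p q s : ι) :
    (on12 A *ᵥ w) (p, (q, s)) = (A *ᵥ (fun z => w (z.1, (z.2, s)))) (p, q) := by
  simp only [Matrix.mulVec, dotProduct, Fintype.sum_prod_type, on12]
  apply Finset.sum_congr rfl
  intro a _
  apply Finset.sum_congr rfl
  intro b _
  rw [Finset.sum_eq_single s]
  · rw [if_pos rfl]
  · intro c _ hc
    rw [if_neg (Ne.symm hc), zero_mul]
  · intro h
    exact absurd (Finset.mem_univ _) h

lemma on23_mulVec (A : Matrix (ι × ι) (ι × ι) ℂ) (w : ι × (ι × ι) → ℂ) (p q s : ι) :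
    (on23 A *ᵥ w) (p, (q, s)) = (A *ᵥ (fun z => w (p, z))) (q, s) := by
  simp only [Matrix.mulVec, dotProduct, Fintype.sum_prod_type, on23]
  rw [Finset.sum_eq_single p]
  · simp only [if_true]
  · intro a _ ha
    apply Finset.sum_eq_zero
    intro b _
    apply Finset.sum_eq_zero
    intro c _
    rw [if_neg (Ne.symm ha), zero_mul]
  · intro h
    exact absurd (Finset.mem_univ _) h

lemma on12_mul (A B : Matrix (ι × ι) (ι × ι) ℂ) : on12 (A * B) = on12 A * on12 B := by
  ext p q
  simp only [Matrix.mul_apply, on12, Fintype.sum_prod_type]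
  by_cases h : p.2.2 = q.2.2
  · rw [if_pos h]
    apply Finset.sum_congr rfl
    intro a _
    apply Finset.sum_congr rfl
    intro b _
    rw [Finset.sum_eq_single q.2.2]
    · rw [if_pos h, if_pos rfl]
    · intro c _ hc
      rw [if_neg hc, mul_zero]
    · intro h
      exact absurd (Finset.mem_univ _) h
  · rw [if_neg h]
    symm
    apply Finset.sum_eq_zero
    intro a _
    apply Finset.sum_eq_zero
    intro b _
    apply Finset.sum_eq_zero
    intro c _
    by_cases hc : c = q.2.2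
    · rw [if_neg (by rw [hc]; exact h), zero_mul]
    · rw [if_neg hc, mul_zero]

lemma on23_mul (A B : Matrix (ι × ι) (ι × ι) ℂ) : on23 (A * B) = on23 A * on23 B := by
  ext p q
  simp only [Matrix.mul_apply, on23, Fintype.sum_prod_type]
  by_cases h : p.1 = q.1
  · rw [if_pos h]
    symm
    rw [Finset.sum_eq_single q.1]
    · apply Finset.sum_congr rfl
      intro a _
      apply Finset.sum_congr rfl
      intro b _
      rw [if_pos h, if_pos rfl]
    · intro c _ hc
      apply Finset.sum_eq_zero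
      intro a _
      apply Finset.sum_eq_zero
      intro b _
      rw [if_neg hc, mul_zero]
    · intro h
      exact absurd (Finset.mem_univ _) h
  · rw [if_neg h]
    symm
    apply Finset.sum_eq_zero
    intro c _
    apply Finset.sum_eq_zero
    intro a _
    apply Finset.sum_eq_zero
    intro b _
    by_cases hc : c = q.1
    · rw [if_neg (by rw [hc]; exact h), zero_mul]
    · rw [if_neg hc, mul_zero]

lemma on12_mul_on3 (A : Matrix (ι × ι) (ι × ι) ℂ) (B : Matrix ι ι ℂ) (p q : ι × (ι × ι)) :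
    (on12 A * on3 B) p q = A (p.1, p.2.1) (q.1, q.2.1) * B p.2.2 q.2.2 := by
  simp only [Matrix.mul_apply, on12, on3, Fintype.sum_prod_type]
  rw [Finset.sum_eq_single q.1]
  · rw [Finset.sum_eq_single q.2.1]
    · rw [Finset.sum_eq_single p.2.2]
      · simp
      · intro c _ hc
        rw [if_neg (Ne.symm hc), zero_mul]
      · intro h
        exact absurd (Finset.mem_univ _) h
    · intro b _ hb
      apply Finset.sum_eq_zero
      intro c _
      rw [if_neg (fun hh : q.1 = q.1 ∧ b = q.2.1 => hb hh.2), mul_zero]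
    · intro h
      exact absurd (Finset.mem_univ _) h
  · intro a _ ha
    apply Finset.sum_eq_zero
    intro b _
    apply Finset.sum_eq_zero
    intro c _
    rw [if_neg (fun hh : a = q.1 ∧ b = q.2.1 => ha hh.1), mul_zero]
  · intro h
    exact absurd (Finset.mem_univ _) h

lemma on3_mul_on12 (A : Matrix (ι × ι) (ι × ι) ℂ) (B : Matrix ι ι ℂ) (p q : ι × (ι × ι)) :
    (on3 B * on12 A) p q = A (p.1, p.2.1) (q.1, q.2.1) * B p.2.2 q.2.2 := by
  simp only [Matrix.mul_apply, on12, on3, Fintype.sum_prod_type]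
  rw [Finset.sum_eq_single p.1]
  · rw [Finset.sum_eq_single p.2.1]
    · rw [Finset.sum_eq_single q.2.2]
      · simp [mul_comm]
      · intro c _ hc
        rw [if_neg hc, mul_zero]
      · intro h
        exact absurd (Finset.mem_univ _) h
    · intro b _ hb
      apply Finset.sum_eq_zero
      intro c _
      rw [if_neg (fun hh : p.1 = p.1 ∧ p.2.1 = b => hb hh.2.symm), zero_mul]
    · intro h
      exact absurd (Finset.mem_univ _) h
  · intro a _ ha
    apply Finset.sum_eq_zero
    intro b _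
    apply Finset.sum_eq_zero
    intro c _
    rw [if_neg (fun hh : p.1 = a ∧ p.2.1 = b => ha hh.1.symm), zero_mul]
  · intro h
    exact absurd (Finset.mem_univ _) h

lemma on12_comm_on3 (A : Matrix (ι × ι) (ι × ι) ℂ) (B : Matrix ι ι ℂ) :
    on12 A * on3 B = on3 B * on12 A := by
  ext p q
  rw [on12_mul_on3, on3_mul_on12]

lemma on23_eq (A : Matrix (ι × ι) (ι × ι) ℂ) : on23 A = (1 : Matrix ι ι ℂ) ⊗ₖ A := by
  ext p q
  simp only [on23, kroneckerMap_apply, Matrix.one_apply]
  by_cases h : p.1 = q.1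
  · rw [if_pos h, if_pos h, one_mul]
  · rw [if_neg h, if_neg h, zero_mul]

end three

end Pool.Agent.W709.RT
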